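import Pool.Agent.HB.Defs

/-!
# HB.B.Compl: completion of a real vector space for a norm

PROOF.  Put on (a type synonym of) `V` the `NormedAddCommGroup` structure with `‖x‖ = g x` (`NormedAddCommGroup.ofCore` /
`AddGroupNorm.toNormedAddCommGroup`) and the real `NormedSpace`, take `UniformSpace.Completion`, `ι` = the coercion
(`UniformSpace.Completion.toComplₗᵢ`), `norm_coe`, `denseRange_coe`.
-/

namespace Pool.Agent.HB

theorem compl_exists (V : Type) [AddCommGroup V] [Module ℝ V] (g : V → ℝ)
    (h0 : ∀ x, x ≠ 0 → 0 < g x) (h1 : ∀ (a : ℝ) x, g (a • x) = |a| * g x)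
    (h2 : ∀ x y, g (x + y) ≤ g x + g y) :
    ∃ (X : Type) (_ : NormedAddCommGroup X) (_ : NormedSpace ℝ X) (_ : CompleteSpace X)
      (ι : V →ₗ[ℝ] X), DenseRange ι ∧ ∀ x, ‖ι x‖ = g x := by
  have hg0 : g 0 = 0 := by
    have := h1 0 0
    simpa using this
  let N : AddGroupNorm V :=
    { toFun := g
      map_zero' := hg0
      add_le' := h2
      neg' := fun x => by
        have := h1 (-1) x
        simpa using this
      eq_zero_of_map_eq_zero' := fun x hx => by
        by_contra hne
        exact (h0 x hne).ne' hx }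
  letI : NormedAddCommGroup V := N.toNormedAddCommGroup
  letI : NormedSpace ℝ V := { norm_smul_le := fun a x => (h1 a x).le }
  refine ⟨UniformSpace.Completion V, inferInstance, inferInstance, inferInstance,
    (UniformSpace.Completion.toComplₗᵢ (𝕜 := ℝ) (E := V)).toLinearMap, ?_, fun x => ?_⟩
  · exact UniformSpace.Completion.denseRange_coe
  · exact UniformSpace.Completion.norm_coe x

end Pool.Agent.HB
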