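import Pool.Agent.HB.B.TailClaim

/-!
# HB.B.SecB: asymptotic smoothness of `fB`

PROOF.  `G ≥ 1` bounds `gB` on some `B k0`.  `h = 0` trivial.  Parameters chosen in this order: `δ ∈ (0,1)`, `ε'`, then `(k, n, η)` from `tail_claim`
for `ε'` (`k ≥ k0` by antitonicity), then `r ≤ 1`.  Let `y ∈ B k`, `h ≠ 0`, `h i = 0` for `i < n`, `gB h ≤ r`; `(F,U)` with
`cst ≤ fB y + η'`, `η' = min η 1 (ε gB(h)²/8)`; `A = 2 IN W h ≤ 4 gB h`, `H0` with `ev 0 H0 = h`, `W t (ev H0) ≤ A`, supported in `Ici n`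
(`IN_exists_supp`).  `χ t = min 1 (max 0 (2‖1 - zz t‖/δ - 1))`: continuous, `1` if `‖1-zz t‖ ≥ δ`, `0` if `≤ δ/2`.  `V = χ • AF H0` is admissible,
`fB (y ± h) ≤ cst (F ± H0) (U ± V)`, `AF (F ± H0) - (U ± V) = D ± (1-χ) AF H0`, `D = AF F - U`.
(1) D-part: for `zz t ≠ 1`, `(1-χ) AF H0 = s • h''` with `W h'' ≤ κ⁻¹ (1-χ)‖1-zz t‖ A ≤ κ⁻¹ δ A`; `pis_cube`: second difference
`≤ 10 (Pis D + δA/κ)(δA/κ)²`; integral `≤ 10 (G + 1 + δA/κ) δ² A²/κ²` (`∫ Pis D ≤ (∫ Pis³)^{1/3} ≤ (G³+1)^{1/3} ≤ G+1`).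
(2) L-part: `Ltail` (with `V t` supported in `Ici n`): `R³ (L(U+V)³+L(U-V)³-2L(U)³) ≤ 34 R³ (L(Q U) + L V) L(V)²`, `Q = res (Ici n)`; it vanishes for
`‖1-zz t‖ < δ/2`; elsewhere `R ≤ B` (`Rb` for `δ/2`), `L V ≤ 64 A`; so the integral is `≤ 34 B² (64A)² ∫ R L(Q U) + 34 B³ (64 A)³`.
`∫ R L(QU) ≤ (∫ R³ L(QU)³)^{1/3}`.  `Lsix`: `L(QU)^6 ≤ (L(U)³ - L(PU)³)(L(U)³+L(PU)³) ≤ 2 L(U)³ (L(U)³ - L(PU)³)`, so by Cauchy-Schwarz
`∫ R³ L(QU)³ ≤ (∫ R³(L(U)³ - L(PU)³))^{1/2} (2∫ R³ L(U)³)^{1/2} ≤ (2 ε' (G³+1))^{1/2}`.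
Total second difference `≤ C(κ) (G+1) δ² gB(h)² + C B² ε'^{1/6} (G+1)... gB(h)² + C B³ r gB(h)² + 2η' ≤ ε gB(h)²` when `δ`, then `ε'`, then `r` are small.
-/

open Finset Real MeasureTheory Polynomial

namespace Pool.Agent.HB

variable {W : TC → CV → ℝ} {L : CV → ℝ} {R : TC → ℝ} {κ : ℝ}

private theorem sb_rs (a : ℝ) (x : CV) : a • x = (a : ℂ) • x := by
  ext i
  simp

private noncomputable def sbchi (δ : ℝ) (t : TC) : ℝ := min 1 (max 0 (2 * ‖1 - zz t‖ / δ - 1))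

private theorem sbchi_cont (δ : ℝ) : Continuous (sbchi δ) :=
  continuous_const.min (continuous_const.max
    (((continuous_const.mul (continuous_const.sub zz_cont).norm).div_const δ).sub
      continuous_const))

private theorem sbchi_nonneg (δ : ℝ) (t : TC) : 0 ≤ sbchi δ t :=
  le_min zero_le_one (le_max_left _ _)

private theorem sbchi_le_one (δ : ℝ) (t : TC) : sbchi δ t ≤ 1 := min_le_left _ _

private theorem sbchi_one {δ : ℝ} (hδ : 0 < δ) {t : TC} (h : δ ≤ ‖1 - zz t‖) :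
    sbchi δ t = 1 := by
  have h1 : 1 ≤ 2 * ‖1 - zz t‖ / δ - 1 := by
    have h2 : 2 ≤ 2 * ‖1 - zz t‖ / δ := by
      rw [le_div_iff₀ hδ]
      linarith
    linarith
  unfold sbchi
  rw [max_eq_right (by linarith), min_eq_left h1]

private theorem sbchi_zero {δ : ℝ} (hδ : 0 < δ) {t : TC} (h : ‖1 - zz t‖ ≤ δ / 2) :
    sbchi δ t = 0 := by
  have h1 : 2 * ‖1 - zz t‖ / δ - 1 ≤ 0 := by
    have h2 : 2 * ‖1 - zz t‖ / δ ≤ 1 := by
      rw [div_le_iff₀ hδ]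
      linarith
    linarith
  unfold sbchi
  rw [max_eq_left h1, min_eq_right zero_le_one]

private theorem sb_two (t : TC) : ‖1 - zz t‖ ≤ 2 := by
  have := norm_sub_le (1 : ℂ) (zz t)
  rw [norm_zz, norm_one] at this
  linarith

private theorem sb_WAF (hS : BSys W L R κ) (H : Pol) (t : TC) :
    W t (AF H t) = ‖1 - zz t‖ ^ 6 * W t (ev (zz t) H) := by
  unfold AF
  rw [hS.fam.smul, norm_pow]

/-- the first part -/
private theorem sb_D (hS : BSys W L R κ) {δ A : ℝ} (hδ : 0 < δ) (hA : 0 ≤ A) (H : Pol) (t : TC)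
    (hH : W t (ev (zz t) H) ≤ A) (x : CV) :
    Pis (W t) (sc κ t) (x + (1 - sbchi δ t) • AF H t) ^ 3 +
      Pis (W t) (sc κ t) (x - (1 - sbchi δ t) • AF H t) ^ 3 - 2 * Pis (W t) (sc κ t) x ^ 3 ≤
      10 * (Pis (W t) (sc κ t) x + κ⁻¹ * δ * A) * (κ⁻¹ * δ * A) ^ 2 := by
  have hκ := hS.κ0
  have hP := pis_nonneg (W := W t) (s := sc κ t) x
  have he : 0 ≤ κ⁻¹ * δ * A := by positivity
  by_cases hz : zz t = 1
  · have h1 : AF H t = 0 := by
      unfold AF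
      rw [hz]
      simp
    rw [h1, smul_zero, add_zero, sub_zero]
    have : 0 ≤ 10 * (Pis (W t) (sc κ t) x + κ⁻¹ * δ * A) * (κ⁻¹ * δ * A) ^ 2 := by positivity
    linarith
  · have hz' : 0 < ‖1 - zz t‖ := norm_pos_iff.2 (sub_ne_zero.2 (Ne.symm hz))
    have hs : 0 < sc κ t := by
      unfold sc
      positivity
    have hc0 : 0 ≤ 1 - sbchi δ t := by linarith [sbchi_le_one δ t]
    have hc1 : 1 - sbchi δ t ≤ 1 := by linarith [sbchi_nonneg δ t]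
    set h : CV := ((sc κ t)⁻¹ * (1 - sbchi δ t)) • AF H t with hh
    have e1 : sc κ t • h = (1 - sbchi δ t) • AF H t := by
      rw [hh, smul_smul, ← mul_assoc, mul_inv_cancel₀ hs.ne', one_mul]
    have hcz : (1 - sbchi δ t) * ‖1 - zz t‖ ≤ δ := by
      rcases le_total δ ‖1 - zz t‖ with hh' | hh'
      · rw [sbchi_one hδ hh', sub_self, zero_mul]
        exact hδ.le
      · calc (1 - sbchi δ t) * ‖1 - zz t‖ ≤ 1 * δ := mul_le_mul hc1 hh' hz'.le zero_le_one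
          _ = δ := one_mul _
    have hWh : W t h ≤ κ⁻¹ * δ * A := by
      rw [hh, sb_rs, hS.fam.smul, sb_WAF hS, Complex.norm_real, Real.norm_eq_abs,
        abs_of_nonneg (by positivity)]
      have e2 : (sc κ t)⁻¹ * (1 - sbchi δ t) * (‖1 - zz t‖ ^ 6 * W t (ev (zz t) H)) =
          κ⁻¹ * ((1 - sbchi δ t) * ‖1 - zz t‖) * W t (ev (zz t) H) := by
        unfold sc
        field_simp
      rw [e2]
      exact mul_le_mul (mul_le_mul_of_nonneg_left hcz (by positivity)) hH (hS.fam.nn t _)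
        (by positivity)
    have hWh0 : 0 ≤ W t h := hS.fam.nn t h
    have h2 := pis_cube (hS.csm t) hs.le (hS.ps t) x h
    rw [e1] at h2
    refine h2.trans ?_
    exact mul_le_mul (mul_le_mul_of_nonneg_left (by linarith) (by norm_num))
      (pow_le_pow_left₀ hWh0 hWh 2) (by positivity) (by positivity)

/-- the second part -/
private theorem sb_L (hS : BSys W L R κ) {δ A M : ℝ} (hδ : 0 < δ) (hA : 0 ≤ A) (hM : 1 ≤ M)
    (hR : ∀ t, δ / 2 ≤ ‖1 - zz t‖ → R t ≤ M) (n : ℕ) (H : Pol)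
    (hsupp : res (Set.Ici n) H = H) (t : TC) (hH : W t (ev (zz t) H) ≤ A) (x : CV) :
    R t ^ 3 * L (x + sbchi δ t • AF H t) ^ 3 + R t ^ 3 * L (x - sbchi δ t • AF H t) ^ 3 -
      2 * (R t ^ 3 * L x ^ 3) ≤
      34 * (M ^ 2 * (64 * A) ^ 2 * (R t * L (res (Set.Ici n) x)) + M ^ 3 * (64 * A) ^ 3) := by
  have hR0 : 0 ≤ R t := zero_le_one.trans (hS.R1 t)
  have hq := hS.Lnn (res (Set.Ici n) x)
  have hM0 : 0 ≤ M := by linarith
  rcases le_total ‖1 - zz t‖ (δ / 2) with h | h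
  · rw [sbchi_zero hδ h, zero_smul, add_zero, sub_zero]
    have : 0 ≤ 34 * (M ^ 2 * (64 * A) ^ 2 * (R t * L (res (Set.Ici n) x)) +
      M ^ 3 * (64 * A) ^ 3) := by positivity
    linarith
  · have hRM := hR t h
    set V : CV := sbchi δ t • AF H t with hV
    have hV0 : ∀ i, i < n → V i = 0 := by
      intro i hi
      have h1 : ev (zz t) H i = 0 := by
        rw [← hsupp, ev_res]
        exact res_apply_not_mem _ _ (fun h2 => absurd (Set.mem_Ici.1 h2) (not_le.2 hi))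
      rw [hV, Finsupp.smul_apply]
      unfold AF
      rw [Finsupp.smul_apply, h1, smul_zero, smul_zero]
    have hLV : L V ≤ 64 * A := by
      rw [hV, sb_rs, hS.Lsmul, Complex.norm_real, Real.norm_eq_abs,
        abs_of_nonneg (sbchi_nonneg δ t)]
      have h1 : L (AF H t) ≤ 64 * A := by
        refine (hS.LW t _).trans ?_
        rw [sb_WAF hS]
        have h2 : ‖1 - zz t‖ ^ 6 ≤ 2 ^ 6 := pow_le_pow_left₀ (norm_nonneg _) (sb_two t) 6
        calc ‖1 - zz t‖ ^ 6 * W t (ev (zz t) H) ≤ 2 ^ 6 * A :=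
              mul_le_mul h2 hH (hS.fam.nn t _) (by positivity)
          _ = 64 * A := by norm_num
      calc sbchi δ t * L (AF H t) ≤ 1 * (64 * A) :=
            mul_le_mul (sbchi_le_one δ t) h1 (hS.Lnn _) zero_le_one
        _ = 64 * A := one_mul _
    have hv := hS.Lnn V
    have h1 := hS.Ltail n x V hV0
    have hR3 : 0 ≤ R t ^ 3 := by positivity
    have h2 := mul_le_mul_of_nonneg_left h1 hR3
    have h3 : R t ^ 2 * L V ^ 2 ≤ M ^ 2 * (64 * A) ^ 2 :=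
      mul_le_mul (pow_le_pow_left₀ hR0 hRM 2) (pow_le_pow_left₀ hv hLV 2) (by positivity)
        (by positivity)
    have h4 : R t ^ 3 * L V ^ 3 ≤ M ^ 3 * (64 * A) ^ 3 :=
      mul_le_mul (pow_le_pow_left₀ hR0 hRM 3) (pow_le_pow_left₀ hv hLV 3) (by positivity)
        (by positivity)
    have h5 : (R t ^ 2 * L V ^ 2) * (R t * L (res (Set.Ici n) x)) ≤
        (M ^ 2 * (64 * A) ^ 2) * (R t * L (res (Set.Ici n) x)) :=
      mul_le_mul_of_nonneg_right h3 (by positivity)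
    calc R t ^ 3 * L (x + V) ^ 3 + R t ^ 3 * L (x - V) ^ 3 - 2 * (R t ^ 3 * L x ^ 3)
        = R t ^ 3 * (L (x + V) ^ 3 + L (x - V) ^ 3 - 2 * L x ^ 3) := by ring
      _ ≤ R t ^ 3 * (34 * (L (res (Set.Ici n) x) + L V) * L V ^ 2) := h2
      _ = 34 * ((R t ^ 2 * L V ^ 2) * (R t * L (res (Set.Ici n) x)) + R t ^ 3 * L V ^ 3) := by
          ring
      _ ≤ _ := mul_le_mul_of_nonneg_left (add_le_add h5 h4) (by norm_num)

private theorem sb_int {f g : TC → ℝ} (hf : Integrable f haar) (hg : Integrable g haar)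
    (a b c : ℝ) : ∫ t, (a * f t + b * g t + c) ∂haar =
      a * (∫ t, f t ∂haar) + b * (∫ t, g t ∂haar) + c := by
  have h1 := integral_add ((hf.const_mul a).add (hg.const_mul b)) (integrable_const c)
  have h2 := integral_add (hf.const_mul a) (hg.const_mul b)
  have h3 : ∫ _t : TC, c ∂haar = c := by simp
  refine h1.trans ?_
  refine (congrArg₂ (fun x y => x + y) h2 h3).trans ?_
  rw [integral_const_mul, integral_const_mul]

private theorem sb_num {r lu lp lq σ τ : ℝ} (hr : 0 ≤ r) (hp : 0 ≤ lp) (hq : 0 ≤ lq)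
    (hpu : lp ≤ lu) (h6 : lp ^ 6 + lq ^ 6 ≤ lu ^ 6) (hσ : 0 < σ) (hτ : 0 < τ) :
    r * lq ≤ σ + τ / σ ^ 2 * (r ^ 3 * lu ^ 3) +
      1 / (2 * τ * σ ^ 2) * (r ^ 3 * (lu ^ 3 - lp ^ 3)) := by
  have hu : 0 ≤ lu := hp.trans hpu
  have hpu3 : lp ^ 3 ≤ lu ^ 3 := pow_le_pow_left₀ hp hpu 3
  set S := r ^ 3 * lu ^ 3 with hS
  set z := r ^ 3 * (lu ^ 3 - lp ^ 3) / (2 * τ) with hz
  have hS0 : 0 ≤ S := by positivity
  have hz0 : 0 ≤ z := div_nonneg (mul_nonneg (by positivity) (by linarith)) (by positivity)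
  have hzΔ : r ^ 3 * (lu ^ 3 - lp ^ 3) = 2 * τ * z := by
    rw [hz]
    field_simp
  have h1 : ((r * lq) ^ 3) ^ 2 ≤ (τ * S + z) ^ 2 := by
    have h2 : ((r * lq) ^ 3) ^ 2 ≤ 2 * S * (r ^ 3 * (lu ^ 3 - lp ^ 3)) := by
      have e1 : ((r * lq) ^ 3) ^ 2 = r ^ 6 * lq ^ 6 := by ring
      have h3 : r ^ 6 * lq ^ 6 ≤ r ^ 6 * (lu ^ 6 - lp ^ 6) :=
        mul_le_mul_of_nonneg_left (by linarith) (by positivity)
      have e2 : r ^ 6 * (lu ^ 6 - lp ^ 6) =
          (r ^ 3 * (lu ^ 3 + lp ^ 3)) * (r ^ 3 * (lu ^ 3 - lp ^ 3)) := by ring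
      have h4 : r ^ 3 * (lu ^ 3 + lp ^ 3) ≤ 2 * S := by
        rw [hS]
        have := mul_le_mul_of_nonneg_left (show lu ^ 3 + lp ^ 3 ≤ 2 * lu ^ 3 by linarith)
          (by positivity : 0 ≤ r ^ 3)
        linarith
      rw [e1]
      refine h3.trans ?_
      rw [e2]
      exact mul_le_mul_of_nonneg_right h4 (mul_nonneg (by positivity) (by linarith))
    rw [hzΔ] at h2
    nlinarith [sq_nonneg (τ * S - z)]
  have h5 : (r * lq) ^ 3 ≤ τ * S + z := le_of_pow_le_pow_left₀ (by norm_num) (by positivity) h1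
  have hq0 : 0 ≤ r * lq := mul_nonneg hr hq
  have h6' : r * lq ≤ σ + (r * lq) ^ 3 / σ ^ 2 := by
    rcases le_total (r * lq) σ with h | h
    · have : 0 ≤ (r * lq) ^ 3 / σ ^ 2 := by positivity
      linarith
    · have h7 : r * lq ≤ (r * lq) ^ 3 / σ ^ 2 := by
        rw [le_div_iff₀ (by positivity)]
        have h8 : σ ^ 2 ≤ (r * lq) ^ 2 := pow_le_pow_left₀ hσ.le h 2
        calc r * lq * σ ^ 2 ≤ r * lq * (r * lq) ^ 2 := mul_le_mul_of_nonneg_left h8 hq0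
          _ = (r * lq) ^ 3 := by ring
      linarith
  have h9 : (r * lq) ^ 3 / σ ^ 2 ≤ (τ * S + z) / σ ^ 2 :=
    div_le_div_of_nonneg_right h5 (by positivity)
  have e3 : (τ * S + z) / σ ^ 2 = τ / σ ^ 2 * S +
      1 / (2 * τ * σ ^ 2) * (r ^ 3 * (lu ^ 3 - lp ^ 3)) := by
    rw [hzΔ]
    field_simp
  linarith

private theorem sb_adm_res {U : TC → CV} (hU : AdmU U) (E : Set ℕ) :
    AdmU (fun t => res E (U t)) := by
  obtain ⟨hU1, δ, hδ, hU2⟩ := hU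
  refine ⟨cur_res hU1 E, δ, hδ, fun t ht => ?_⟩
  show res E (U t) = 0
  rw [hU2 t ht, res_zero]

private theorem sb_small (hS : BSys W L R κ) {G ω : ℝ} (hG : 0 < G) (hω : 0 < ω) :
    ∃ ε' : ℝ, 0 < ε' ∧ ∀ (U : TC → CV), AdmU U → ∀ n : ℕ,
      ∫ t, R t ^ 3 * L (U t) ^ 3 ∂haar ≤ G →
      ∫ t, R t ^ 3 * (L (U t) ^ 3 - L (res (Set.Iio n) (U t)) ^ 3) ∂haar ≤ ε' →
      ∫ t, R t * L (res (Set.Ici n) (U t)) ∂haar ≤ ω := by
  set σ : ℝ := ω / 3 with hσ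
  have hσ0 : 0 < σ := by positivity
  set τ : ℝ := ω * σ ^ 2 / (3 * G) with hτ
  have hτ0 : 0 < τ := by positivity
  refine ⟨2 * τ * σ ^ 2 * (ω / 3), by positivity, fun U hU n h1 h2 => ?_⟩
  have i1 := (int_RL hS hU).1
  have i2 := (int_RL hS (sb_adm_res hU (Set.Iio n))).1
  have i3 := (int_RL hS (sb_adm_res hU (Set.Ici n))).2
  have i4 : Integrable (fun t => R t ^ 3 * (L (U t) ^ 3 - L (res (Set.Iio n) (U t)) ^ 3)) haar := by
    refine (i1.sub i2).congr (Filter.Eventually.of_forall fun t => ?_)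
    show R t ^ 3 * L (U t) ^ 3 - R t ^ 3 * L (res (Set.Iio n) (U t)) ^ 3 =
      R t ^ 3 * (L (U t) ^ 3 - L (res (Set.Iio n) (U t)) ^ 3)
    ring
  have h3 : ∫ t, R t * L (res (Set.Ici n) (U t)) ∂haar ≤
      ∫ t, (τ / σ ^ 2 * (R t ^ 3 * L (U t) ^ 3) +
        1 / (2 * τ * σ ^ 2) * (R t ^ 3 * (L (U t) ^ 3 - L (res (Set.Iio n) (U t)) ^ 3)) + σ)
        ∂haar := by
    refine integral_mono i3 (((i1.const_mul _).add (i4.const_mul _)).add (integrable_const σ))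
      fun t => ?_
    have h := sb_num (zero_le_one.trans (hS.R1 t)) (hS.Lnn _) (hS.Lnn _) (hS.Lres _ _)
      (hS.Lsix n (U t)) hσ0 hτ0
    show R t * L (res (Set.Ici n) (U t)) ≤ τ / σ ^ 2 * (R t ^ 3 * L (U t) ^ 3) +
        1 / (2 * τ * σ ^ 2) * (R t ^ 3 * (L (U t) ^ 3 - L (res (Set.Iio n) (U t)) ^ 3)) + σ
    linarith
  rw [sb_int i1 i4] at h3
  have h4 : τ / σ ^ 2 * ∫ t, R t ^ 3 * L (U t) ^ 3 ∂haar ≤ τ / σ ^ 2 * G :=
    mul_le_mul_of_nonneg_left h1 (by positivity)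
  have h5 : 1 / (2 * τ * σ ^ 2) *
      ∫ t, R t ^ 3 * (L (U t) ^ 3 - L (res (Set.Iio n) (U t)) ^ 3) ∂haar ≤
      1 / (2 * τ * σ ^ 2) * (2 * τ * σ ^ 2 * (ω / 3)) :=
    mul_le_mul_of_nonneg_left h2 (by positivity)
  have e1 : τ / σ ^ 2 * G = ω / 3 := by
    rw [hτ]
    field_simp
  have e2 : 1 / (2 * τ * σ ^ 2) * (2 * τ * σ ^ 2 * (ω / 3)) = ω / 3 := by
    field_simp
  rw [e1] at h4
  rw [e2] at h5
  linarith

private theorem sb_AFsub (F H : Pol) (t : TC) :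
    AF (F + (C (-1) : ℂ[X]) • H) t = AF F t - AF H t := by
  rw [AF_add]
  have e : AF ((C (-1) : ℂ[X]) • H) t = -AF H t := by
    unfold AF
    rw [ev_smul, eval_C, smul_comm, neg_smul, one_smul]
  rw [e, ← sub_eq_add_neg]

/-- the second difference of the energy -/
private theorem sb_main (hS : BSys W L R κ) {δ A M : ℝ} (hδ : 0 < δ) (hA : 0 ≤ A) (hM : 1 ≤ M)
    (hR : ∀ t, δ / 2 ≤ ‖1 - zz t‖ → R t ≤ M) (n : ℕ) (F H : Pol)
    (hsupp : res (Set.Ici n) H = H) (hH : ∀ t, W t (ev (zz t) H) ≤ A) {U : TC → CV}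
    (hU : AdmU U) :
    fB W L R κ (ev 0 F + ev 0 H) + fB W L R κ (ev 0 F - ev 0 H) ≤
      2 * cst W L R κ F U + (10 * (κ⁻¹ * δ * A) ^ 2 * (1 + cst W L R κ F U + κ⁻¹ * δ * A) +
        34 * (M ^ 2 * (64 * A) ^ 2 * (∫ t, R t * L (res (Set.Ici n) (U t)) ∂haar) +
          M ^ 3 * (64 * A) ^ 3)) := by
  have hκ := hS.κ0
  have hV : AdmU (fun t => sbchi δ t • AF H t) := by
    refine ⟨cur_rsmul (cur_AF H) (sbchi_cont δ), δ / 2, by positivity, fun t ht => ?_⟩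
    show sbchi δ t • AF H t = 0
    rw [sbchi_zero hδ ht, zero_smul]
  have hUp := adm_comb hU hV 1 1
  have hUm := adm_comb hU hV 1 (-1)
  simp only [one_smul, neg_smul, ← sub_eq_add_neg] at hUp hUm
  have f1 := fB_le hS (F + H) hUp
  have f2 := fB_le hS (F + (C (-1) : ℂ[X]) • H) hUm
  rw [ev_add] at f1
  rw [ev_add, ev_smul, eval_C, neg_smul, one_smul, ← sub_eq_add_neg] at f2
  set e : ℝ := κ⁻¹ * δ * A with he
  have he0 : 0 ≤ e := by positivity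
  have ip := (int_pis hS (F + H) hUp 3).add (int_RL hS hUp).1
  have im := (int_pis hS (F + (C (-1) : ℂ[X]) • H) hUm 3).add (int_RL hS hUm).1
  have i0 := (int_pis hS F hU 3).add (int_RL hS hU).1
  have iD := int_pis hS F hU 3
  have iQ := (int_RL hS (sb_adm_res hU (Set.Ici n))).2
  have e1 : cst W L R κ (F + H) (fun t => U t + sbchi δ t • AF H t) +
      cst W L R κ (F + (C (-1) : ℂ[X]) • H) (fun t => U t - sbchi δ t • AF H t) -
      2 * cst W L R κ F U =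
      ∫ t, ((Pis (W t) (sc κ t) (AF (F + H) t - (U t + sbchi δ t • AF H t)) ^ 3 +
          R t ^ 3 * L (U t + sbchi δ t • AF H t) ^ 3) +
        (Pis (W t) (sc κ t) (AF (F + (C (-1) : ℂ[X]) • H) t - (U t - sbchi δ t • AF H t)) ^ 3 +
          R t ^ 3 * L (U t - sbchi δ t • AF H t) ^ 3) -
        2 * (Pis (W t) (sc κ t) (AF F t - U t) ^ 3 + R t ^ 3 * L (U t) ^ 3)) ∂haar := by
    have a1 := integral_sub (ip.add im) (i0.const_mul 2)
    have a2 := integral_add ip im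
    have a3 := integral_const_mul (μ := haar) 2
      (fun t => Pis (W t) (sc κ t) (AF F t - U t) ^ 3 + R t ^ 3 * L (U t) ^ 3)
    unfold cst
    refine Eq.symm (a1.trans ?_)
    exact congrArg₂ (fun a b => a - b) a2 a3
  have h1 : cst W L R κ (F + H) (fun t => U t + sbchi δ t • AF H t) +
      cst W L R κ (F + (C (-1) : ℂ[X]) • H) (fun t => U t - sbchi δ t • AF H t) -
      2 * cst W L R κ F U ≤
      ∫ t, (10 * e ^ 2 * Pis (W t) (sc κ t) (AF F t - U t) ^ 3 +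
        34 * (M ^ 2 * (64 * A) ^ 2) * (R t * L (res (Set.Ici n) (U t))) +
        (10 * e ^ 2 * (1 + e) + 34 * (M ^ 3 * (64 * A) ^ 3))) ∂haar := by
    rw [e1]
    refine integral_mono ((ip.add im).sub (i0.const_mul 2))
      (((iD.const_mul _).add (iQ.const_mul _)).add (integrable_const _)) fun t => ?_
    show ((Pis (W t) (sc κ t) (AF (F + H) t - (U t + sbchi δ t • AF H t)) ^ 3 +
          R t ^ 3 * L (U t + sbchi δ t • AF H t) ^ 3) +
        (Pis (W t) (sc κ t) (AF (F + (C (-1) : ℂ[X]) • H) t - (U t - sbchi δ t • AF H t)) ^ 3 +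
          R t ^ 3 * L (U t - sbchi δ t • AF H t) ^ 3) -
        2 * (Pis (W t) (sc κ t) (AF F t - U t) ^ 3 + R t ^ 3 * L (U t) ^ 3)) ≤
      10 * e ^ 2 * Pis (W t) (sc κ t) (AF F t - U t) ^ 3 +
        34 * (M ^ 2 * (64 * A) ^ 2) * (R t * L (res (Set.Ici n) (U t))) +
        (10 * e ^ 2 * (1 + e) + 34 * (M ^ 3 * (64 * A) ^ 3))
    have b1 : AF (F + H) t - (U t + sbchi δ t • AF H t) =
        (AF F t - U t) + (1 - sbchi δ t) • AF H t := by
      rw [AF_add, sub_smul, one_smul]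
      abel
    have b2 : AF (F + (C (-1) : ℂ[X]) • H) t - (U t - sbchi δ t • AF H t) =
        (AF F t - U t) - (1 - sbchi δ t) • AF H t := by
      rw [sb_AFsub, sub_smul, one_smul]
      abel
    rw [b1, b2]
    have c1 := sb_D hS hδ hA H t (hH t) (AF F t - U t)
    have c2 := sb_L hS hδ hA hM hR n H hsupp t (hH t) (U t)
    rw [← he] at c1
    set P := Pis (W t) (sc κ t) (AF F t - U t) with hP
    have hP0 : 0 ≤ P := pis_nonneg _
    have c3 : P ≤ 1 + P ^ 3 := by nlinarith [sq_nonneg (P - 1), mul_nonneg hP0 (sq_nonneg (P - 1))]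
    have c4 : 10 * (P + e) * e ^ 2 ≤ 10 * e ^ 2 * P ^ 3 + 10 * e ^ 2 * (1 + e) := by
      have c5 : 0 ≤ 10 * e ^ 2 := by positivity
      have c6 := mul_le_mul_of_nonneg_left c3 c5
      nlinarith
    linarith
  rw [sb_int iD iQ] at h1
  have hJ : ∫ t, Pis (W t) (sc κ t) (AF F t - U t) ^ 3 ∂haar ≤ cst W L R κ F U := by
    rw [cst_eq hS F hU]
    have : 0 ≤ ∫ t, R t ^ 3 * L (U t) ^ 3 ∂haar := integral_nonneg fun t =>
      mul_nonneg (pow_nonneg (zero_le_one.trans (hS.R1 t)) 3) (pow_nonneg (hS.Lnn _) 3)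
    linarith
  have h2 : 10 * e ^ 2 * ∫ t, Pis (W t) (sc κ t) (AF F t - U t) ^ 3 ∂haar ≤
      10 * e ^ 2 * cst W L R κ F U := mul_le_mul_of_nonneg_left hJ (by positivity)
  have h3 : 10 * e ^ 2 * (1 + cst W L R κ F U + e) =
      10 * e ^ 2 * cst W L R κ F U + 10 * e ^ 2 * (1 + e) := by ring
  linarith

theorem sec_tail (hS : BSys W L R κ) (B : ℕ → Set CV) (hB : Antitone B)
    (hd : ∀ ε : ℝ, 0 < ε → ∃ k, ∀ y ∈ B k, ∀ y' ∈ B k, gB W L R κ (y - y') ≤ ε)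
    {ε : ℝ} (hε : 0 < ε) :
    ∃ (k n : ℕ) (r : ℝ), 0 < r ∧ ∀ y ∈ B k, ∀ h : CV, (∀ i, i < n → h i = 0) →
      gB W L R κ h ≤ r →
      fB W L R κ (y + h) + fB W L R κ (y - h) - 2 * fB W L R κ y ≤ ε * gB W L R κ h ^ 2 := by
  obtain ⟨k0, G, hG1, hGB⟩ : ∃ (k0 : ℕ) (G : ℝ), 1 ≤ G ∧ ∀ y ∈ B k0, gB W L R κ y ≤ G := by
    obtain ⟨k0, hk0⟩ := hd 1 one_pos
    rcases (B k0).eq_empty_or_nonempty with h | ⟨y0, hy0⟩
    · exact ⟨k0, 1, le_rfl, fun y hy => by rw [h] at hy; exact absurd hy (Set.notMem_empty y)⟩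
    · refine ⟨k0, gB W L R κ y0 + 1, by linarith [gB_nonneg hS y0], fun y hy => ?_⟩
      have h1 := gB_add hS y0 (y - y0)
      rw [add_sub_cancel] at h1
      have h2 := hk0 y hy y0 hy0
      linarith
  have hκ := hS.κ0
  set Z : ℝ := G ^ 3 + 2 + 4 / κ with hZ
  have hZ0 : 0 < Z := by positivity
  set δ : ℝ := min 1 (ε * κ ^ 2 / (640 * Z)) with hδdef
  have hδ : 0 < δ := lt_min one_pos (by positivity)
  have hδ1 : δ ≤ 1 := min_le_left _ _
  have hδ2 : δ ≤ ε * κ ^ 2 / (640 * Z) := min_le_right _ _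
  obtain ⟨M0, hM0⟩ := hS.Rb (δ / 2) (by positivity)
  set M : ℝ := max 1 M0 with hMdef
  have hM : 1 ≤ M := le_max_left _ _
  have hRM : ∀ t, δ / 2 ≤ ‖1 - zz t‖ → R t ≤ M := fun t ht =>
    (hM0 t ht).trans (le_max_right _ _)
  have hMpos : 0 < M := by linarith
  obtain ⟨ε', hε', hsm⟩ := sb_small hS (G := G ^ 3 + 1) (ω := ε / (4 * (34 * 256 ^ 2) * M ^ 2))
    (by positivity) (by positivity)
  obtain ⟨k1, n, η, hη, htc⟩ := tail_claim hS B hB hd hε'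
  refine ⟨max k0 k1, n, min 1 (ε / (4 * (34 * 256 ^ 3) * M ^ 3)),
    lt_min one_pos (by positivity), fun y hy h hh hg => ?_⟩
  have hy0 : y ∈ B k0 := hB (le_max_left _ _) hy
  have hy1 : y ∈ B k1 := hB (le_max_right _ _) hy
  set g : ℝ := gB W L R κ h with hgdef
  have hg0 : 0 ≤ g := gB_nonneg hS h
  have hgneg : gB W L R κ (-h) = g := by
    have h1 := gB_smul hS (-1) h
    rwa [neg_smul, one_smul, norm_neg, norm_one, one_mul] at h1
  rcases hg0.eq_or_lt with hg1 | hg1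
  · have h1 := gB_add hS y h
    have h2 := gB_add hS y (-h)
    rw [hgneg, ← hg1, add_zero, ← sub_eq_add_neg] at h2
    rw [← hgdef, ← hg1, add_zero] at h1
    rw [← gB_cube hS, ← gB_cube hS, ← gB_cube hS, ← hg1]
    have h3 := pow_le_pow_left₀ (gB_nonneg hS _) h1 3
    have h4 := pow_le_pow_left₀ (gB_nonneg hS _) h2 3
    have : ε * (0 : ℝ) ^ 2 = 0 := by ring
    linarith
  · have hg2 : g ≤ 1 := hg.trans (min_le_left _ _)
    have hg3 : g ≤ ε / (4 * (34 * 256 ^ 3) * M ^ 3) := hg.trans (min_le_right _ _)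
    have hIN : IN W h < 4 * g := by
      have := IN_le_gB hS h
      linarith
    have hres : res (Set.Ici n) h = h := by
      refine res_eq_self _ _ fun i hi => ?_
      by_contra hcon
      exact (Finsupp.mem_support_iff.1 hi) (hh i (by simpa using hcon))
    obtain ⟨H, hH0, hHs, hHW⟩ := IN_exists_supp hS.fam hIN (Set.Ici n) Set.ordConnected_Ici hres
    set η' : ℝ := min η (min 1 (ε * g ^ 2 / 8)) with hη'
    have hη'0 : 0 < η' := lt_min hη (lt_min one_pos (by positivity))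
    have hη'1 : η' ≤ η := min_le_left _ _
    have hη'2 : η' ≤ 1 := (min_le_right _ _).trans (min_le_left _ _)
    have hη'3 : η' ≤ ε * g ^ 2 / 8 := (min_le_right _ _).trans (min_le_right _ _)
    obtain ⟨F, U, hF, hU, hc⟩ := fB_exists hS y hη'0
    have hfy : fB W L R κ y ≤ G ^ 3 := by
      rw [← gB_cube hS]
      exact pow_le_pow_left₀ (gB_nonneg hS _) (hGB y hy0) 3
    have hc1 : cst W L R κ F U ≤ G ^ 3 + 1 := by linarith
    have hc0 := cst_nonneg hS F U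
    have htail := htc y hy1 F U hF hU (hc.trans (by linarith))
    have hI : ∫ t, R t ^ 3 * L (U t) ^ 3 ∂haar ≤ G ^ 3 + 1 := by
      have h1 := cst_eq hS F hU
      have h2 : 0 ≤ ∫ t, Pis (W t) (sc κ t) (AF F t - U t) ^ 3 ∂haar :=
        integral_nonneg fun t => pow_nonneg (pis_nonneg _) 3
      linarith
    have hω := hsm U hU n hI htail
    have hmain := sb_main hS hδ (A := 4 * g) (by positivity) hM hRM n F H hHs hHW hU
    rw [hF, hH0] at hmain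
    -- the three parts
    have p1 : 10 * (κ⁻¹ * δ * (4 * g)) ^ 2 * (1 + cst W L R κ F U + κ⁻¹ * δ * (4 * g)) ≤
        ε / 4 * g ^ 2 := by
      have a1 : 1 + cst W L R κ F U + κ⁻¹ * δ * (4 * g) ≤ Z := by
        have a2 : κ⁻¹ * δ * (4 * g) ≤ 4 / κ := by
          have a3 : δ * (4 * g) ≤ 1 * (4 * 1) :=
            mul_le_mul hδ1 (by linarith) (by positivity) zero_le_one
          calc κ⁻¹ * δ * (4 * g) = κ⁻¹ * (δ * (4 * g)) := by ring
            _ ≤ κ⁻¹ * (1 * (4 * 1)) := mul_le_mul_of_nonneg_left a3 (by positivity)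
            _ = 4 / κ := by ring
        rw [hZ]
        linarith
      have a4 : δ ^ 2 ≤ ε * κ ^ 2 / (640 * Z) := by
        have : δ ^ 2 ≤ δ := by nlinarith
        linarith
      have a5 : 10 * (κ⁻¹ * δ * (4 * g)) ^ 2 ≤ ε / (4 * Z) * g ^ 2 := by
        have e1 : 10 * (κ⁻¹ * δ * (4 * g)) ^ 2 = 160 * (κ⁻¹ ^ 2 * g ^ 2) * δ ^ 2 := by ring
        have e2 : 160 * (κ⁻¹ ^ 2 * g ^ 2) * (ε * κ ^ 2 / (640 * Z)) = ε / (4 * Z) * g ^ 2 := by
          field_simp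
          ring
        rw [e1, ← e2]
        exact mul_le_mul_of_nonneg_left a4 (by positivity)
      calc 10 * (κ⁻¹ * δ * (4 * g)) ^ 2 * (1 + cst W L R κ F U + κ⁻¹ * δ * (4 * g))
          ≤ (ε / (4 * Z) * g ^ 2) * Z := mul_le_mul a5 a1 (by positivity) (by positivity)
        _ = ε / 4 * g ^ 2 := by field_simp
    have p2 : 34 * (M ^ 2 * (64 * (4 * g)) ^ 2 *
        (∫ t, R t * L (res (Set.Ici n) (U t)) ∂haar)) ≤ ε / 4 * g ^ 2 := by
      calc 34 * (M ^ 2 * (64 * (4 * g)) ^ 2 * (∫ t, R t * L (res (Set.Ici n) (U t)) ∂haar))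
          ≤ 34 * (M ^ 2 * (64 * (4 * g)) ^ 2 * (ε / (4 * (34 * 256 ^ 2) * M ^ 2))) := by
            refine mul_le_mul_of_nonneg_left ?_ (by norm_num)
            exact mul_le_mul_of_nonneg_left hω (by positivity)
        _ = ε / 4 * g ^ 2 := by
            field_simp
            ring
    have p3 : 34 * (M ^ 3 * (64 * (4 * g)) ^ 3) ≤ ε / 4 * g ^ 2 := by
      have e1 : 34 * (M ^ 3 * (64 * (4 * g)) ^ 3) = (34 * 256 ^ 3 * M ^ 3 * g ^ 2) * g := by ring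
      rw [e1]
      calc (34 * 256 ^ 3 * M ^ 3 * g ^ 2) * g
          ≤ (34 * 256 ^ 3 * M ^ 3 * g ^ 2) * (ε / (4 * (34 * 256 ^ 3) * M ^ 3)) :=
            mul_le_mul_of_nonneg_left hg3 (by positivity)
        _ = ε / 4 * g ^ 2 := by
            field_simp
    have e5 : 34 * (M ^ 2 * (64 * (4 * g)) ^ 2 *
        (∫ t, R t * L (res (Set.Ici n) (U t)) ∂haar) + M ^ 3 * (64 * (4 * g)) ^ 3) =
        34 * (M ^ 2 * (64 * (4 * g)) ^ 2 * (∫ t, R t * L (res (Set.Ici n) (U t)) ∂haar)) +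
        34 * (M ^ 3 * (64 * (4 * g)) ^ 3) := by ring
    rw [e5] at hmain
    linarith

end Pool.Agent.HB
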