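import Pool.Agent.HB.B.SecA
import Pool.Agent.HB.B.SecB
import Pool.Agent.HB.B.Compl
import Pool.Agent.HB.A.Main

/-!
# HB.B.Assemble: a completion with a `C²` bump

PROOF.  `X, ι` from `compl_exists` for `gB` (positive: `IN_pos`, `IN_le_gB`).  Basis: `e (2i) = ι (single i 1)`, `e (2i+1) = ι (single i I)`;
`φ (2i)`, `φ (2i+1)`: the continuous extensions of `x ↦ Re (x i)`, `Im (x i)` (`|x i| ≤ IN W x ≤ 2 gB x`).
`PP e φ (2k) (ι x) = ι (res (Iio k) x)`, `PP e φ (2k+1) (ι x) = ι (res (Iio k) x + single k (Re (x k)))`.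
`gB (res (Iio k) x) ≤ (2/κ) IN W x ≤ (4/κ) gB x`; `gB (single k (Re (x k))) = |Re (x k)| gB (single k 1) ≤ ‖x k‖ gB (single k 1) = gB (res {k} x) ≤ (4/κ) gB x`
(`{k}` is order connected).  So `Bas e φ K` with `K = 8/κ` (bounds pass to `X` by density; `PP m x → x` on the dense subspace
where it is eventually constant, hence everywhere by the uniform bound).
`hb` for `partA`: on `ι V` it is `sec_diff` (`‖ι x‖³ = fB x`); by density and continuity on `X`.
`hc`: let `x ∈ X`, `ε > 0`; `B k = {y : CV | ‖ι y - x‖ ≤ 1/(k+1)}` is antitone with diameters `≤ 2/(k+1)`; `sec_tail` for `ε` gives `(k, n, r)`; use the index `2n` and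
`r' = min r (1/(2(k+1)))/2`...: for `‖y - x‖ ≤ r'` in `X` and `PP (2n) h = 0`, `‖h‖ ≤ r'`: approximate `y` by `ι y_j`, and `h` by
`ι (res (Ici n) h_j)` where `ι h_j → h` (`ι (res (Ici n) h_j) = ι h_j - PP (2n) (ι h_j) → h`); `gB ≤ r` for large `j`; pass to the limit in
the inequality (norms are continuous).
Apply `partA`.
-/
open Finset

namespace Pool.Agent.HB

private theorem asm_ext {X : Type} [NormedAddCommGroup X] [NormedSpace ℝ X] (ι : CV →ₗ[ℝ] X)
    (hinj : Function.Injective ι) (ℓ : CV →ₗ[ℝ] ℝ) (C : ℝ) (h : ∀ x, |ℓ x| ≤ C * ‖ι x‖) :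
    ∃ f : X →L[ℝ] ℝ, ∀ x, f (ι x) = ℓ x := by
  let E := LinearEquiv.ofInjective ι hinj
  let g : LinearMap.range ι →ₗ[ℝ] ℝ := ℓ.comp E.symm.toLinearMap
  have hg : ∀ y : LinearMap.range ι, ‖g y‖ ≤ C * ‖y‖ := by
    intro y
    have h1 := h (E.symm y)
    have h2 : ι (E.symm y) = (y : X) := by
      have h3 : (E (E.symm y) : X) = ι (E.symm y) := LinearEquiv.ofInjective_apply ι (E.symm y)
      rw [← h3, LinearEquiv.apply_symm_apply]
    rw [h2] at h1
    exact h1
  obtain ⟨f, hf, -⟩ := exists_extension_norm_eq (LinearMap.range ι) (g.mkContinuous C hg)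
  refine ⟨f, fun x => ?_⟩
  have h1 := hf (E x)
  have h2 : (E x : X) = ι x := LinearEquiv.ofInjective_apply ι x
  rw [h2] at h1
  rw [h1, LinearMap.mkContinuous_apply]
  show ℓ (E.symm (E x)) = ℓ x
  rw [LinearEquiv.symm_apply_apply]

/-- real coordinates of a complex sequence -/
private noncomputable def asmL (n : ℕ) : CV →ₗ[ℝ] ℝ where
  toFun x := if n % 2 = 0 then (x (n / 2)).re else (x (n / 2)).im
  map_add' x y := by
    split_ifs <;> simp
  map_smul' a x := by
    split_ifs <;> simp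

private theorem asmL_abs (n : ℕ) (x : CV) : |asmL n x| ≤ ‖x (n / 2)‖ := by
  show |if n % 2 = 0 then (x (n / 2)).re else (x (n / 2)).im| ≤ _
  split_ifs
  · exact Complex.abs_re_le_norm _
  · exact Complex.abs_im_le_norm _

/-- real basis vectors -/
private noncomputable def asmE (n : ℕ) : CV :=
  Finsupp.single (n / 2) (if n % 2 = 0 then 1 else Complex.I)

private theorem asm_bio (i j : ℕ) : asmL i (asmE j) = if i = j then 1 else 0 := by
  show (if i % 2 = 0 then (asmE j (i / 2)).re else (asmE j (i / 2)).im) = _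
  unfold asmE
  rw [Finsupp.single_apply]
  by_cases hij : j / 2 = i / 2
  · rw [if_pos hij]
    by_cases hi : i % 2 = 0
    · rw [if_pos hi]
      by_cases hj : j % 2 = 0
      · rw [if_pos hj, if_pos (by omega)]
        simp
      · rw [if_neg hj, if_neg (by omega)]
        simp
    · rw [if_neg hi]
      by_cases hj : j % 2 = 0
      · rw [if_pos hj, if_neg (by omega)]
        simp
      · rw [if_neg hj, if_pos (by omega)]
        simp
  · have hne : i ≠ j := by
      intro h
      subst h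
      exact hij rfl
    rw [if_neg hij, if_neg hne]
    simp

private theorem asm_res_succ (x : CV) (k : ℕ) :
    res (Set.Iio (k + 1)) x = res (Set.Iio k) x + Finsupp.single k (x k) := by
  classical
  ext i
  rw [Finsupp.add_apply, res_apply, res_apply, Finsupp.single_apply]
  simp only [Set.mem_Iio]
  by_cases h1 : i < k
  · rw [if_pos (by omega), if_pos h1, if_neg (by omega), add_zero]
  · by_cases h2 : i = k
    · subst h2
      simp
    · rw [if_neg (by omega), if_neg h1, if_neg (by omega), add_zero]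

private theorem asm_sum (x : CV) (k : ℕ) :
    ∑ i ∈ range (2 * k), asmL i x • asmE i = res (Set.Iio k) x := by
  induction k with
  | zero =>
    simp only [mul_zero, range_zero, sum_empty]
    symm
    apply res_eq_zero
    intro i _ h
    simp at h
  | succ k ih =>
    rw [show 2 * (k + 1) = 2 * k + 1 + 1 by ring, sum_range_succ, sum_range_succ, ih,
      asm_res_succ, add_assoc]
    congr 1
    have e1 : asmL (2 * k) x = (x k).re := by
      show (if (2 * k) % 2 = 0 then (x (2 * k / 2)).re else (x (2 * k / 2)).im) = _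
      rw [if_pos (by omega), show 2 * k / 2 = k by omega]
    have e2 : asmL (2 * k + 1) x = (x k).im := by
      show (if (2 * k + 1) % 2 = 0 then (x ((2 * k + 1) / 2)).re
        else (x ((2 * k + 1) / 2)).im) = _
      rw [if_neg (by omega), show (2 * k + 1) / 2 = k by omega]
    have e3 : asmE (2 * k) = Finsupp.single k 1 := by
      unfold asmE
      rw [if_pos (by omega), show 2 * k / 2 = k by omega]
    have e4 : asmE (2 * k + 1) = Finsupp.single k Complex.I := by
      unfold asmE
      rw [if_neg (by omega), show (2 * k + 1) / 2 = k by omega]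
    rw [e1, e2, e3, e4, Finsupp.smul_single, Finsupp.smul_single, ← Finsupp.single_add]
    congr 1
    apply Complex.ext <;> simp

section

variable {X : Type} [NormedAddCommGroup X] [NormedSpace ℝ X]

private theorem asm_PP_cont (e : ℕ → X) (φ : ℕ → (X →L[ℝ] ℝ)) (m : ℕ) :
    Continuous fun y => PP e φ m y := by
  unfold PP
  exact continuous_finsetSum _ fun i _ => ((φ i).continuous.smul continuous_const)

private theorem asm_PP_sub (e : ℕ → X) (φ : ℕ → (X →L[ℝ] ℝ)) (m : ℕ) (x y : X) :
    PP e φ m (x - y) = PP e φ m x - PP e φ m y := by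
  unfold PP
  rw [← Finset.sum_sub_distrib]
  refine Finset.sum_congr rfl fun i _ => ?_
  rw [map_sub, sub_smul]

end

private theorem asm_rsmul (a : ℝ) (x : CV) : a • x = (a : ℂ) • x := by
  ext i
  simp

private theorem asm_bdd {W : TC → CV → ℝ} {L : CV → ℝ} {R : TC → ℝ} {κ : ℝ} (hS : BSys W L R κ)
    (m : ℕ) (x : CV) :
    gB W L R κ (∑ i ∈ range m, asmL i x • asmE i) ≤ 8 / κ * gB W L R κ x := by
  have hκ := hS.κ0
  have hg := gB_nonneg hS x
  have hE : ∀ E : Set ℕ, E.OrdConnected → gB W L R κ (res E x) ≤ 4 / κ * gB W L R κ x := by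
    intro E hE
    calc gB W L R κ (res E x) ≤ 2 / κ * IN W (res E x) := gB_le_IN hS _
      _ ≤ 2 / κ * IN W x := mul_le_mul_of_nonneg_left (IN_res hS.fam E hE x) (by positivity)
      _ ≤ 2 / κ * (2 * gB W L R κ x) :=
          mul_le_mul_of_nonneg_left (IN_le_gB hS x) (by positivity)
      _ = 4 / κ * gB W L R κ x := by ring
  rcases Nat.even_or_odd' m with ⟨k, hk | hk⟩
  · rw [hk, asm_sum]
    refine (hE _ Set.ordConnected_Iio).trans ?_
    have : 0 ≤ 4 / κ * gB W L R κ x := by positivity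
    have e : 8 / κ * gB W L R κ x = 4 / κ * gB W L R κ x + 4 / κ * gB W L R κ x := by ring
    rw [e]
    linarith
  · rw [hk, sum_range_succ, asm_sum]
    have e1 : asmL (2 * k) x = (x k).re := by
      show (if (2 * k) % 2 = 0 then (x (2 * k / 2)).re else (x (2 * k / 2)).im) = _
      rw [if_pos (by omega), show 2 * k / 2 = k by omega]
    have e3 : asmE (2 * k) = Finsupp.single k 1 := by
      unfold asmE
      rw [if_pos (by omega), show 2 * k / 2 = k by omega]
    rw [e1, e3]
    have h1 : gB W L R κ ((x k).re • Finsupp.single k (1 : ℂ)) ≤ 4 / κ * gB W L R κ x := by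
      have h2 : gB W L R κ ((x k).re • Finsupp.single k (1 : ℂ)) =
          |(x k).re| * gB W L R κ (Finsupp.single k (1 : ℂ)) := by
        rw [asm_rsmul, gB_smul hS, Complex.norm_real, Real.norm_eq_abs]
      have h3 : gB W L R κ (res {k} x) = ‖x k‖ * gB W L R κ (Finsupp.single k (1 : ℂ)) := by
        rw [← gB_smul hS]
        congr 1
        classical
        ext i
        rw [res_apply, Finsupp.smul_apply, Finsupp.single_apply]
        by_cases hi : k = i
        · subst hi
          simp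
        · rw [if_neg (by simpa using fun h => hi h.symm), if_neg hi]
          simp
      have h4 := hE {k} Set.ordConnected_singleton
      rw [h3] at h4
      rw [h2]
      refine le_trans ?_ h4
      exact mul_le_mul_of_nonneg_right (Complex.abs_re_le_norm _) (gB_nonneg hS _)
    calc gB W L R κ (res (Set.Iio k) x + (x k).re • Finsupp.single k (1 : ℂ))
        ≤ gB W L R κ (res (Set.Iio k) x) + gB W L R κ ((x k).re • Finsupp.single k (1 : ℂ)) :=
          gB_add hS _ _
      _ ≤ 4 / κ * gB W L R κ x + 4 / κ * gB W L R κ x :=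
          add_le_add (hE _ Set.ordConnected_Iio) h1
      _ = 8 / κ * gB W L R κ x := by ring

private theorem asm_basis {W : TC → CV → ℝ} {L : CV → ℝ} {R : TC → ℝ} {κ : ℝ}
    (hS : BSys W L R κ) {X : Type} [NormedAddCommGroup X] [NormedSpace ℝ X]
    (ι : CV →ₗ[ℝ] X) (hd : DenseRange ι) (hn : ∀ x, ‖ι x‖ = gB W L R κ x) :
    ∃ φ : ℕ → (X →L[ℝ] ℝ), Bas (fun n => ι (asmE n)) φ (8 / κ) ∧
      ∀ n x, PP (fun n => ι (asmE n)) φ (2 * n) (ι x) = ι (res (Set.Iio n) x) := by
  have hκ := hS.κ0
  have hinj : Function.Injective ι := by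
    rw [injective_iff_map_eq_zero]
    intro x hx
    by_contra hne
    have h1 := IN_pos hS.fam hne
    have h2 := IN_le_gB hS x
    rw [← hn, hx, norm_zero] at h2
    linarith
  have hex : ∀ n, ∃ f : X →L[ℝ] ℝ, ∀ x, f (ι x) = asmL n x := by
    intro n
    refine asm_ext ι hinj (asmL n) 2 fun x => ?_
    rw [hn]
    exact (asmL_abs n x).trans ((coord_le_IN hS.fam x _).trans (IN_le_gB hS x))
  choose φ hφ using hex
  have hPP : ∀ m x, PP (fun n => ι (asmE n)) φ m (ι x) =
      ι (∑ i ∈ range m, asmL i x • asmE i) := by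
    intro m x
    unfold PP
    rw [map_sum]
    refine Finset.sum_congr rfl fun i _ => ?_
    rw [hφ, map_smul]
  have hb : ∀ m x, ‖PP (fun n => ι (asmE n)) φ m x‖ ≤ 8 / κ * ‖x‖ := by
    intro m x
    refine hd.induction_on (p := fun x => ‖PP (fun n => ι (asmE n)) φ m x‖ ≤ 8 / κ * ‖x‖) x ?_ ?_
    · exact isClosed_le (asm_PP_cont _ _ _).norm (continuous_const.mul continuous_norm)
    · intro a
      rw [hPP, hn, hn]
      exact asm_bdd hS m a
  refine ⟨φ, ⟨fun i j => ?_, hb, fun x => ?_⟩, fun n x => ?_⟩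
  · show φ i (ι (asmE j)) = _
    rw [hφ]
    exact asm_bio i j
  · rw [Metric.tendsto_atTop]
    intro ε hε
    have hKp : 0 < 8 / κ + 2 := by positivity
    obtain ⟨a, ha⟩ := Metric.denseRange_iff.1 hd x (ε / (8 / κ + 2)) (by positivity)
    obtain ⟨n, hn1⟩ : ∃ n, ∀ i ∈ a.support, i < n :=
      ⟨a.support.sup id + 1, fun i hi => Nat.lt_succ_of_le (Finset.le_sup (f := id) hi)⟩
    refine ⟨2 * n, fun m hm => ?_⟩
    have hfix : PP (fun n => ι (asmE n)) φ m (ι a) = ι a := by
      rw [hPP]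
      congr 1
      have h1 : ∑ i ∈ range m, asmL i a • asmE i = ∑ i ∈ range (2 * n), asmL i a • asmE i := by
        symm
        apply Finset.sum_subset
        · intro i hi
          rw [mem_range] at hi ⊢
          omega
        · intro i hi hi2
          rw [mem_range] at hi hi2
          have h0 : a (i / 2) = 0 := by
            by_contra h
            have := hn1 _ (Finsupp.mem_support_iff.2 h)
            omega
          have h2 := asmL_abs i a
          rw [h0, norm_zero] at h2
          have h3 : asmL i a = 0 := abs_eq_zero.1 (le_antisymm h2 (abs_nonneg _))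
          rw [h3, zero_smul]
      rw [h1, asm_sum]
      exact res_eq_self _ _ fun i hi => hn1 i hi
    rw [dist_eq_norm] at ha ⊢
    have e1 : PP (fun n => ι (asmE n)) φ m x - x =
        PP (fun n => ι (asmE n)) φ m (x - ι a) - (x - ι a) := by
      rw [asm_PP_sub, hfix]
      abel
    rw [e1]
    calc ‖PP (fun n => ι (asmE n)) φ m (x - ι a) - (x - ι a)‖
        ≤ ‖PP (fun n => ι (asmE n)) φ m (x - ι a)‖ + ‖x - ι a‖ := norm_sub_le _ _
      _ ≤ 8 / κ * ‖x - ι a‖ + ‖x - ι a‖ := by
          have := hb m (x - ι a)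
          linarith
      _ ≤ (8 / κ + 2) * ‖x - ι a‖ := by
          have := norm_nonneg (x - ι a)
          nlinarith
      _ < (8 / κ + 2) * (ε / (8 / κ + 2)) := mul_lt_mul_of_pos_left ha hKp
      _ = ε := by field_simp
  · rw [hPP, asm_sum]

private theorem asm_main {W : TC → CV → ℝ} {L : CV → ℝ} {R : TC → ℝ} {κ : ℝ}
    (hS : BSys W L R κ) {X : Type} [NormedAddCommGroup X] [NormedSpace ℝ X] [CompleteSpace X]
    (ι : CV →ₗ[ℝ] X) (hd : DenseRange ι) (hn : ∀ x, ‖ι x‖ = gB W L R κ x) :
    ∃ b : X → ℝ, ContDiff ℝ 2 b ∧ b ≠ 0 ∧ Bornology.IsBounded (Function.support b) := by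
  obtain ⟨φ, hB, hPP⟩ := asm_basis hS ι hd hn
  obtain ⟨C, hC, hsec⟩ := sec_diff hS
  have hcube : ∀ x, ‖ι x‖ ^ 3 = fB W L R κ x := fun x => by rw [hn, gB_cube hS]
  refine partA hB C ?_ ?_
  · intro x h
    refine hd.induction_on₂ (p := fun x h => ‖x + h‖ ^ 3 + ‖x - h‖ ^ 3 - 2 * ‖x‖ ^ 3 ≤
      C * (‖x‖ + ‖h‖) * ‖h‖ ^ 2) ?_ ?_ x h
    · exact isClosed_le (by fun_prop) (by fun_prop)
    · intro a b
      rw [← map_add, ← map_sub, hcube, hcube, hcube, hn, hn]
      exact hsec a b
  · intro x ε hε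
    obtain ⟨B, hBdef⟩ : ∃ B : ℕ → Set CV, B = fun k : ℕ => {a : CV | ‖ι a - x‖ ≤ 1 / ((k : ℝ) + 1)} :=
      ⟨_, rfl⟩
    have hmem : ∀ k a, a ∈ B k ↔ ‖ι a - x‖ ≤ 1 / ((k : ℝ) + 1) := by
      intro k a
      rw [hBdef]
      rfl
    have hanti : Antitone B := by
      intro k l hkl a ha
      rw [hmem] at ha ⊢
      refine ha.trans ?_
      exact one_div_le_one_div_of_le (by positivity) (by exact_mod_cast Nat.succ_le_succ hkl)
    have hdiam : ∀ ε : ℝ, 0 < ε → ∃ k, ∀ y ∈ B k, ∀ y' ∈ B k, gB W L R κ (y - y') ≤ ε := by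
      intro ε hε
      obtain ⟨k, hk⟩ := exists_nat_one_div_lt (show 0 < ε / 2 by positivity)
      refine ⟨k, fun y hy y' hy' => ?_⟩
      rw [hmem] at hy hy'
      rw [← hn, map_sub]
      have e : ι y - ι y' = (ι y - x) - (ι y' - x) := by abel
      rw [e]
      refine (norm_sub_le _ _).trans ?_
      linarith
    obtain ⟨k, n, r, hr, hst⟩ := sec_tail hS B hanti hdiam hε
    have hk1 : (0 : ℝ) < 1 / ((k : ℝ) + 1) := by positivity
    refine ⟨2 * n, min (r / 2) (1 / ((k : ℝ) + 1) / 2), lt_min (by positivity) (by positivity),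
      fun y hy h hPh hh => ?_⟩
    have hyc : y ∈ closure (Set.range ι) := hd y
    have hhc : h ∈ closure (Set.range ι) := hd h
    rw [mem_closure_iff_seq_limit] at hyc hhc
    obtain ⟨u, hu, hul⟩ := hyc
    obtain ⟨v, hv, hvl⟩ := hhc
    choose a ha using hu
    choose b hb using hv
    have hbl : Filter.Tendsto (fun j => ι (res (Set.Ici n) (b j))) Filter.atTop (nhds h) := by
      have e1 : ∀ j, ι (res (Set.Ici n) (b j)) =
          v j - PP (fun n => ι (asmE n)) φ (2 * n) (v j) := by
        intro j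
        rw [← hb j, hPP, ← map_sub]
        congr 1
        rw [eq_sub_iff_add_eq, add_comm]
        exact res_Iio_add_Ici n (b j)
      have e2 : Filter.Tendsto (fun j => v j - PP (fun n => ι (asmE n)) φ (2 * n) (v j))
          Filter.atTop (nhds (h - PP (fun n => ι (asmE n)) φ (2 * n) h)) :=
        hvl.sub (((asm_PP_cont _ _ _).tendsto h).comp hvl)
      rw [hPh, sub_zero] at e2
      exact e2.congr fun j => (e1 j).symm
    have hal : Filter.Tendsto (fun j => ι (a j)) Filter.atTop (nhds y) := by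
      refine hul.congr fun j => (ha j).symm
    have hev1 : ∀ᶠ j in Filter.atTop, a j ∈ B k := by
      have h1 : Filter.Tendsto (fun j => ‖ι (a j) - x‖) Filter.atTop (nhds ‖y - x‖) :=
        (hal.sub tendsto_const_nhds).norm
      have h2 : ‖y - x‖ < 1 / ((k : ℝ) + 1) := by
        have := hy.trans (min_le_right _ _)
        linarith
      filter_upwards [h1.eventually (gt_mem_nhds h2)] with j hj
      rw [hmem]
      exact hj.le
    have hev2 : ∀ᶠ j in Filter.atTop, gB W L R κ (res (Set.Ici n) (b j)) ≤ r := by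
      have h1 : Filter.Tendsto (fun j => ‖ι (res (Set.Ici n) (b j))‖) Filter.atTop (nhds ‖h‖) :=
        hbl.norm
      have h2 : ‖h‖ < r := by
        have := hh.trans (min_le_left _ _)
        linarith
      filter_upwards [h1.eventually (gt_mem_nhds h2)] with j hj
      rw [← hn]
      exact hj.le
    have hT1 : Filter.Tendsto (fun j => ‖ι (a j) + ι (res (Set.Ici n) (b j))‖ ^ 3 +
        ‖ι (a j) - ι (res (Set.Ici n) (b j))‖ ^ 3 - 2 * ‖ι (a j)‖ ^ 3) Filter.atTop
        (nhds (‖y + h‖ ^ 3 + ‖y - h‖ ^ 3 - 2 * ‖y‖ ^ 3)) :=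
      (((hal.add hbl).norm.pow 3).add ((hal.sub hbl).norm.pow 3)).sub
        ((hal.norm.pow 3).const_mul 2)
    have hT2 : Filter.Tendsto (fun j => ε * ‖ι (res (Set.Ici n) (b j))‖ ^ 2) Filter.atTop
        (nhds (ε * ‖h‖ ^ 2)) := (hbl.norm.pow 2).const_mul ε
    refine le_of_tendsto_of_tendsto hT1 hT2 ?_
    filter_upwards [hev1, hev2] with j hj1 hj2
    rw [← map_add, ← map_sub, hcube, hcube, hcube, hn]
    refine hst (a j) hj1 _ (fun i hi => ?_) hj2
    exact res_apply_not_mem _ _ (by simpa using hi)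

theorem partB {W : TC → CV → ℝ} {L : CV → ℝ} {R : TC → ℝ} {κ : ℝ} (hS : BSys W L R κ) :
    ∃ (X : Type) (_ : NormedAddCommGroup X) (_ : NormedSpace ℝ X) (_ : CompleteSpace X)
      (ι : CV →ₗ[ℝ] X), DenseRange ι ∧ (∀ x, IN W x ≤ 2 * ‖ι x‖) ∧
      (∀ x, ‖ι x‖ ≤ 2 / κ * IN W x) ∧
      ∃ b : X → ℝ, ContDiff ℝ 2 b ∧ b ≠ 0 ∧ Bornology.IsBounded (Function.support b) := by
  obtain ⟨X, i1, i2, i3, ι, hd, hn⟩ := compl_exists CV (gB W L R κ)
    (fun x hx => by
      have h1 := IN_pos hS.fam hx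
      have h2 := IN_le_gB hS x
      linarith)
    (fun a x => by rw [asm_rsmul, gB_smul hS, Complex.norm_real, Real.norm_eq_abs])
    (gB_add hS)
  exact ⟨X, i1, i2, i3, ι, hd, fun x => by rw [hn]; exact IN_le_gB hS x,
    fun x => by rw [hn]; exact gB_le_IN hS x, asm_main hS ι hd hn⟩

end Pool.Agent.HB
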