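import Pool.Agent.HB.B.Meas

/-!
# HB.B.Cost: the functional `fB` and the norm `gB`

PROOFS.
* `cst_nonneg`, `fB_nonneg`: the density is `≥ 0`.  The set defining `fB x` is nonempty (constant polynomial, `U = 0`).
* `cst_convex`: pointwise convexity: `Pis (a x + b y)³ ≤ (a Pis x + b Pis y)³ ≤ a Pis(x)³ + b Pis(y)³` for `a + b = 1`, and the same for `L`;
  `AF (a F + b G) - (a U + b V) = a (AF F - U) + b (AF G - V)`; integrate (`int_pis`, `int_RL`).
* `fB_smul`: `cst (a F) (a U) = ‖a‖³ cst F U` (`Pol` is a `ℂ`-module; `ev (a • F) = a • ev F`).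
* `fB_lower`: `bal` (k = 3) for the polynomial `(1-X)^6 • F`: `IN W x ^3 ≤ ∫ W t (AF F t)^3`; for a.e. `t` (`haar_one`)
  `W (AF F) ≤ W (AF F - U) + W U ≤ Pis(AF F - U) + R L(U)` and `(a+b)³ ≤ 4(a³+b³)`.
* `fB_upper`: `U = 0`, `F` with `W t (ev F) ≤ A`: density `≤ (κ⁻¹ · 2 · A)³`.
* `gB_add`: `fB` is convex and `3`-homogeneous, so `gB = fB^{1/3}` is subadditive (as for `pis_add`:
  `fB (x+y) ≤ fB(x)/λ² + fB(y)/(1-λ)²`, optimize `λ = gB x/(gB x + gB y)`; `gB y = 0` implies `y = 0` by `fB_lower`, `IN_pos`).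
* `gB` is comparable with `IN W`: `IN W x ≤ 2 gB x` (`4^{1/3} ≤ 2`), `gB x ≤ (2/κ) IN W x`.
-/

open Finset Real MeasureTheory Polynomial

namespace Pool.Agent.HB

variable {W : TC → CV → ℝ} {L : CV → ℝ} {R : TC → ℝ} {κ : ℝ}

private theorem cost_ofe (hS : BSys W L R κ) (x : CV) : ∃ F : Pol, ev 0 F = x := by
  obtain ⟨A, _, F, hF, _⟩ := IN_ne hS.fam x
  exact ⟨F, hF⟩

private theorem cost_pis0 (hS : BSys W L R κ) (t : TC) : Pis (W t) (sc κ t) 0 = 0 := by
  have h := pis_smul (hS.csm t) (sc_nonneg hS.κ0.le t) (hS.ps t) 0 0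
  rwa [smul_zero, norm_zero, zero_mul] at h

private theorem cost_L0 (hS : BSys W L R κ) : L 0 = 0 := by
  have h := hS.Lsmul 0 0
  rwa [smul_zero, norm_zero, zero_mul] at h

private theorem cost_dens (hS : BSys W L R κ) (F : Pol) (U : TC → CV) (t : TC) :
    0 ≤ Pis (W t) (sc κ t) (AF F t - U t) ^ 3 + R t ^ 3 * L (U t) ^ 3 := by
  have h1 : 0 ≤ R t := zero_le_one.trans (hS.R1 t)
  have h2 := hS.Lnn (U t)
  have h3 := pis_nonneg (W := W t) (s := sc κ t) (AF F t - U t)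
  positivity

/-- the numerical convexity inequality -/
private theorem cost_num {p q a b : ℝ} (hp : 0 ≤ p) (hq : 0 ≤ q) (ha : 0 < a) (hb : 0 < b)
    (hab : a + b = 1) : (p + q) ^ 3 ≤ p ^ 3 / a ^ 2 + q ^ 3 / b ^ 2 := by
  have h := (convexOn_pow 3).2 (show p / a ∈ Set.Ici (0 : ℝ) from div_nonneg hp ha.le)
    (show q / b ∈ Set.Ici (0 : ℝ) from div_nonneg hq hb.le) ha.le hb.le hab
  simp only [smul_eq_mul] at h
  have e1 : a * (p / a) + b * (q / b) = p + q := by field_simp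
  have e2 : a * (p / a) ^ 3 + b * (q / b) ^ 3 = p ^ 3 / a ^ 2 + q ^ 3 / b ^ 2 := by
    field_simp
  rwa [e1, e2] at h

theorem cst_nonneg (hS : BSys W L R κ) (F : Pol) (U : TC → CV) : 0 ≤ cst W L R κ F U := by
  exact integral_nonneg fun t => cost_dens hS F U t

theorem cst_eq (hS : BSys W L R κ) (F : Pol) {U : TC → CV} (hU : AdmU U) :
    cst W L R κ F U = (∫ t, Pis (W t) (sc κ t) (AF F t - U t) ^ 3 ∂haar) +
      ∫ t, R t ^ 3 * L (U t) ^ 3 ∂haar := by
  exact integral_add (int_pis hS F hU 3) (int_RL hS hU).1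

theorem adm_zero : AdmU (fun _ => (0 : CV)) := by
  exact ⟨cur_const 0, 1, one_pos, fun _ _ => rfl⟩

theorem adm_comb {U V : TC → CV} (hU : AdmU U) (hV : AdmU V) (a b : ℝ) :
    AdmU (fun t => a • U t + b • V t) := by
  obtain ⟨hU1, δ, hδ, hU2⟩ := hU
  obtain ⟨hV1, δ', hδ', hV2⟩ := hV
  refine ⟨cur_add (cur_rsmul hU1 (g := fun _ => a) continuous_const)
    (cur_rsmul hV1 (g := fun _ => b) continuous_const), min δ δ', lt_min hδ hδ', fun t ht => ?_⟩
  show a • U t + b • V t = 0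
  rw [hU2 t (ht.trans (min_le_left _ _)), hV2 t (ht.trans (min_le_right _ _)), smul_zero, smul_zero,
    add_zero]

private theorem cost_adm_smul {U : TC → CV} (hU : AdmU U) (a : ℂ) : AdmU (fun t => a • U t) := by
  obtain ⟨hU1, δ, hδ, hU2⟩ := hU
  refine ⟨cur_smul hU1 (g := fun _ => a) continuous_const, δ, hδ, fun t ht => ?_⟩
  show a • U t = 0
  rw [hU2 t ht, smul_zero]

private theorem cost_adm_add {U V : TC → CV} (hU : AdmU U) (hV : AdmU V) :
    AdmU (fun t => U t + V t) := by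
  have h := adm_comb hU hV 1 1
  simpa only [one_smul] using h

theorem fB_le (hS : BSys W L R κ) (F : Pol) {U : TC → CV} (hU : AdmU U) :
    fB W L R κ (ev 0 F) ≤ cst W L R κ F U := by
  refine csInf_le ⟨0, ?_⟩ ⟨F, U, rfl, hU, rfl⟩
  rintro c ⟨G, V, _, _, rfl⟩
  exact cst_nonneg hS G V

theorem fB_exists (hS : BSys W L R κ) (x : CV) {η : ℝ} (hη : 0 < η) :
    ∃ (F : Pol) (U : TC → CV), ev 0 F = x ∧ AdmU U ∧ cst W L R κ F U ≤ fB W L R κ x + η := by
  obtain ⟨F₀, hF₀⟩ := cost_ofe hS x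
  have hne : {c | ∃ (F : Pol) (U : TC → CV), ev 0 F = x ∧ AdmU U ∧ c = cst W L R κ F U}.Nonempty :=
    ⟨_, F₀, _, hF₀, adm_zero, rfl⟩
  have hlt : sInf {c | ∃ (F : Pol) (U : TC → CV), ev 0 F = x ∧ AdmU U ∧ c = cst W L R κ F U} <
      fB W L R κ x + η := by
    show fB W L R κ x < fB W L R κ x + η
    linarith
  obtain ⟨c, ⟨F, U, hF, hU, rfl⟩, hc⟩ := exists_lt_of_csInf_lt hne hlt
  exact ⟨F, U, hF, hU, hc.le⟩

theorem fB_nonneg (hS : BSys W L R κ) (x : CV) : 0 ≤ fB W L R κ x := by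
  refine Real.sInf_nonneg ?_
  rintro c ⟨G, V, _, _, rfl⟩
  exact cst_nonneg hS G V

theorem gB_cube (hS : BSys W L R κ) (x : CV) : gB W L R κ x ^ 3 = fB W L R κ x := by
  have h0 := fB_nonneg hS x
  unfold gB
  rw [← Real.rpow_natCast, ← Real.rpow_mul h0]
  norm_num

theorem gB_nonneg (hS : BSys W L R κ) (x : CV) : 0 ≤ gB W L R κ x := by
  exact Real.rpow_nonneg (fB_nonneg hS x) _

private theorem cost_AF_smul (a : ℂ) (F : Pol) (t : TC) : AF ((C a : ℂ[X]) • F) t = a • AF F t := by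
  unfold AF
  rw [ev_smul, eval_C, smul_comm]

private theorem cost_smul_le (hS : BSys W L R κ) (a : ℂ) (x : CV) :
    fB W L R κ (a • x) ≤ ‖a‖ ^ 3 * fB W L R κ x := by
  refine le_of_forall_pos_le_add fun ε hε => ?_
  have hn : 0 < ‖a‖ ^ 3 + 1 := by positivity
  obtain ⟨F, U, hF, hU, hc⟩ := fB_exists hS x (η := ε / (‖a‖ ^ 3 + 1)) (by positivity)
  have h1 := fB_le hS ((C a : ℂ[X]) • F) (cost_adm_smul hU a)
  rw [ev_smul, eval_C, hF] at h1
  have h2 : cst W L R κ ((C a : ℂ[X]) • F) (fun t => a • U t) = ‖a‖ ^ 3 * cst W L R κ F U := by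
    unfold cst
    rw [← integral_const_mul]
    refine integral_congr_ae (Filter.Eventually.of_forall fun t => ?_)
    show Pis (W t) (sc κ t) (AF ((C a : ℂ[X]) • F) t - a • U t) ^ 3 + R t ^ 3 * L (a • U t) ^ 3 =
      ‖a‖ ^ 3 * (Pis (W t) (sc κ t) (AF F t - U t) ^ 3 + R t ^ 3 * L (U t) ^ 3)
    rw [cost_AF_smul, ← smul_sub, pis_smul (hS.csm t) (sc_nonneg hS.κ0.le t) (hS.ps t), hS.Lsmul]
    ring
  rw [h2] at h1
  refine h1.trans ((mul_le_mul_of_nonneg_left hc (by positivity)).trans ?_)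
  rw [mul_add]
  have : ‖a‖ ^ 3 * (ε / (‖a‖ ^ 3 + 1)) ≤ ε := by
    rw [mul_div_assoc', div_le_iff₀ hn]
    nlinarith [pow_nonneg (norm_nonneg a) 3]
  linarith

private theorem cost_smul (hS : BSys W L R κ) (a : ℂ) (x : CV) :
    fB W L R κ (a • x) = ‖a‖ ^ 3 * fB W L R κ x := by
  refine le_antisymm (cost_smul_le hS a x) ?_
  by_cases ha : a = 0
  · rw [ha, norm_zero]
    simpa using fB_nonneg hS _
  · have h1 := cost_smul_le hS a⁻¹ (a • x)
    rw [smul_smul, inv_mul_cancel₀ ha, one_smul, norm_inv] at h1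
    have hn : 0 < ‖a‖ := norm_pos_iff.2 ha
    calc ‖a‖ ^ 3 * fB W L R κ x ≤ ‖a‖ ^ 3 * (‖a‖⁻¹ ^ 3 * fB W L R κ (a • x)) :=
          mul_le_mul_of_nonneg_left h1 (by positivity)
      _ = fB W L R κ (a • x) := by
          rw [← mul_assoc, ← mul_pow, mul_inv_cancel₀ hn.ne', one_pow, one_mul]

theorem gB_smul (hS : BSys W L R κ) (a : ℂ) (x : CV) : gB W L R κ (a • x) = ‖a‖ * gB W L R κ x := by
  have h1 : gB W L R κ (a • x) ^ 3 = (‖a‖ * gB W L R κ x) ^ 3 := by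
    rw [gB_cube hS, cost_smul hS, mul_pow, gB_cube hS]
  exact (pow_left_inj₀ (gB_nonneg hS _) (mul_nonneg (norm_nonneg _) (gB_nonneg hS _))
    (by norm_num)).1 h1

private theorem cost_comb (hS : BSys W L R κ) (F G : Pol) {U V : TC → CV} (hU : AdmU U)
    (hV : AdmU V) {a b : ℝ} (ha : 0 < a) (hb : 0 < b) (hab : a + b = 1) :
    cst W L R κ (F + G) (fun t => U t + V t) ≤
      cst W L R κ F U / a ^ 2 + cst W L R κ G V / b ^ 2 := by
  have hI : ∀ (F : Pol) {U : TC → CV}, AdmU U → Integrable (fun t =>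
      Pis (W t) (sc κ t) (AF F t - U t) ^ 3 + R t ^ 3 * L (U t) ^ 3) haar := by
    intro F U hU
    exact (int_pis hS F hU 3).add (int_RL hS hU).1
  have e1 : cst W L R κ F U / a ^ 2 + cst W L R κ G V / b ^ 2 =
      ∫ t, ((Pis (W t) (sc κ t) (AF F t - U t) ^ 3 + R t ^ 3 * L (U t) ^ 3) / a ^ 2 +
        (Pis (W t) (sc κ t) (AF G t - V t) ^ 3 + R t ^ 3 * L (V t) ^ 3) / b ^ 2) ∂haar := by
    rw [integral_add ((hI F hU).div_const _) ((hI G hV).div_const _), integral_div, integral_div]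
    rfl
  rw [e1]
  unfold cst
  refine integral_mono (hI (F + G) (cost_adm_add hU hV))
    (((hI F hU).div_const _).add ((hI G hV).div_const _)) fun t => ?_
  show Pis (W t) (sc κ t) (AF (F + G) t - (U t + V t)) ^ 3 + R t ^ 3 * L (U t + V t) ^ 3 ≤
    (Pis (W t) (sc κ t) (AF F t - U t) ^ 3 + R t ^ 3 * L (U t) ^ 3) / a ^ 2 +
      (Pis (W t) (sc κ t) (AF G t - V t) ^ 3 + R t ^ 3 * L (V t) ^ 3) / b ^ 2
  have h1 : Pis (W t) (sc κ t) (AF (F + G) t - (U t + V t)) ^ 3 ≤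
      Pis (W t) (sc κ t) (AF F t - U t) ^ 3 / a ^ 2 +
        Pis (W t) (sc κ t) (AF G t - V t) ^ 3 / b ^ 2 := by
    rw [AF_add, add_sub_add_comm]
    exact (pow_le_pow_left₀ (pis_nonneg _)
      (pis_add (hS.csm t) (sc_nonneg hS.κ0.le t) (hS.ps t) _ _) 3).trans
      (cost_num (pis_nonneg _) (pis_nonneg _) ha hb hab)
  have h2 : L (U t + V t) ^ 3 ≤ L (U t) ^ 3 / a ^ 2 + L (V t) ^ 3 / b ^ 2 :=
    (pow_le_pow_left₀ (hS.Lnn _) (hS.Ladd _ _) 3).trans
      (cost_num (hS.Lnn _) (hS.Lnn _) ha hb hab)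
  have hR : 0 ≤ R t ^ 3 := pow_nonneg (zero_le_one.trans (hS.R1 t)) 3
  have h3 := mul_le_mul_of_nonneg_left h2 hR
  have e2 : (Pis (W t) (sc κ t) (AF F t - U t) ^ 3 + R t ^ 3 * L (U t) ^ 3) / a ^ 2 +
      (Pis (W t) (sc κ t) (AF G t - V t) ^ 3 + R t ^ 3 * L (V t) ^ 3) / b ^ 2 =
      (Pis (W t) (sc κ t) (AF F t - U t) ^ 3 / a ^ 2 +
        Pis (W t) (sc κ t) (AF G t - V t) ^ 3 / b ^ 2) +
      R t ^ 3 * (L (U t) ^ 3 / a ^ 2 + L (V t) ^ 3 / b ^ 2) := by ring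
  rw [e2]
  exact add_le_add h1 h3

private theorem cost_fB_add (hS : BSys W L R κ) (x y : CV) {a b : ℝ} (ha : 0 < a) (hb : 0 < b)
    (hab : a + b = 1) :
    fB W L R κ (x + y) ≤ fB W L R κ x / a ^ 2 + fB W L R κ y / b ^ 2 := by
  refine le_of_forall_pos_le_add fun ε hε => ?_
  obtain ⟨F, U, hF, hU, hc⟩ := fB_exists hS x (η := a ^ 2 * (ε / 2)) (by positivity)
  obtain ⟨G, V, hG, hV, hd⟩ := fB_exists hS y (η := b ^ 2 * (ε / 2)) (by positivity)
  have h1 := fB_le hS (F + G) (cost_adm_add hU hV)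
  rw [ev_add, hF, hG] at h1
  have h2 := cost_comb hS F G hU hV ha hb hab
  have h3 : cst W L R κ F U / a ^ 2 ≤ fB W L R κ x / a ^ 2 + ε / 2 := by
    rw [div_le_iff₀ (by positivity), add_mul, div_mul_cancel₀ _ (by positivity)]
    linarith
  have h4 : cst W L R κ G V / b ^ 2 ≤ fB W L R κ y / b ^ 2 + ε / 2 := by
    rw [div_le_iff₀ (by positivity), add_mul, div_mul_cancel₀ _ (by positivity)]
    linarith
  linarith

theorem gB_add (hS : BSys W L R κ) (x y : CV) :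
    gB W L R κ (x + y) ≤ gB W L R κ x + gB W L R κ y := by
  refine le_of_forall_pos_le_add fun ε hε => ?_
  have hu := gB_nonneg hS x
  have hv := gB_nonneg hS y
  set u : ℝ := gB W L R κ x + ε / 2 with hu'
  set v : ℝ := gB W L R κ y + ε / 2 with hv'
  have hu0 : 0 < u := by linarith
  have hv0 : 0 < v := by linarith
  have h1 := cost_fB_add hS x y (a := u / (u + v)) (b := v / (u + v)) (by positivity) (by positivity)
    (by field_simp)
  have h2 : fB W L R κ x ≤ u ^ 3 := by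
    rw [← gB_cube hS]
    exact pow_le_pow_left₀ hu (by linarith) 3
  have h3 : fB W L R κ y ≤ v ^ 3 := by
    rw [← gB_cube hS]
    exact pow_le_pow_left₀ hv (by linarith) 3
  have h4 : fB W L R κ x / (u / (u + v)) ^ 2 + fB W L R κ y / (v / (u + v)) ^ 2 ≤ (u + v) ^ 3 := by
    have e : u ^ 3 / (u / (u + v)) ^ 2 + v ^ 3 / (v / (u + v)) ^ 2 = (u + v) ^ 3 := by
      field_simp
    rw [← e]
    exact add_le_add (div_le_div_of_nonneg_right h2 (by positivity))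
      (div_le_div_of_nonneg_right h3 (by positivity))
  have h5 : gB W L R κ (x + y) ^ 3 ≤ (u + v) ^ 3 := by
    rw [gB_cube hS]
    exact h1.trans h4
  have h6 := le_of_pow_le_pow_left₀ (by norm_num) (by positivity) h5
  linarith

private theorem cost_lower (hS : BSys W L R κ) (F : Pol) {U : TC → CV} (hU : AdmU U) :
    IN W (ev 0 F) ^ 3 ≤ 4 * cst W L R κ F U := by
  have h1 := bal hS.fam (((1 - X) ^ 6 : ℂ[X]) • F) 3 (by norm_num)
  rw [(AF_eq F).2] at h1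
  refine h1.trans ?_
  have e1 : 4 * cst W L R κ F U =
      ∫ t, 4 * (Pis (W t) (sc κ t) (AF F t - U t) ^ 3 + R t ^ 3 * L (U t) ^ 3) ∂haar := by
    rw [integral_const_mul]
    rfl
  rw [e1]
  refine integral_mono_ae ?_ (((int_pis hS F hU 3).add (int_RL hS hU).1).const_mul 4) ?_
  · exact cont_int_real ((hS.fam.cont _ (cur_ev _)).pow 3)
  · have hae : ∀ᵐ t ∂haar, ¬ zz t = 1 := by
      rw [ae_iff]
      simpa only [not_not] using haar_one
    filter_upwards [hae] with t ht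
    rw [← (AF_eq F).1 t]
    have h2 : W t (AF F t) ≤ W t (AF F t - U t) + W t (U t) := by
      have := hS.fam.add t (AF F t - U t) (U t)
      rwa [sub_add_cancel] at this
    have h3 := pis_ge (hS.csm t) (sc_nonneg hS.κ0.le t) (hS.ps t) (AF F t - U t)
    have h4 := hS.RW t ht (U t)
    have h5 : W t (AF F t) ≤ Pis (W t) (sc κ t) (AF F t - U t) + R t * L (U t) := by linarith
    have h6 : 0 ≤ R t * L (U t) := mul_nonneg (zero_le_one.trans (hS.R1 t)) (hS.Lnn _)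
    have h7 := pis_nonneg (W := W t) (s := sc κ t) (AF F t - U t)
    have h8 := pow_le_pow_left₀ (hS.fam.nn t _) h5 3
    refine h8.trans ?_
    set p := Pis (W t) (sc κ t) (AF F t - U t)
    rw [← mul_pow]
    set q := R t * L (U t)
    nlinarith [mul_nonneg (add_nonneg h7 h6) (sq_nonneg (p - q))]

theorem IN_le_gB (hS : BSys W L R κ) (x : CV) : IN W x ≤ 2 * gB W L R κ x := by
  have h1 : IN W x ^ 3 ≤ 4 * fB W L R κ x := by
    refine le_of_forall_pos_le_add fun ε hε => ?_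
    obtain ⟨F, U, hF, hU, hc⟩ := fB_exists hS x (η := ε / 4) (by positivity)
    have h2 := cost_lower hS F hU
    rw [hF] at h2
    linarith
  rw [← gB_cube hS] at h1
  have h0 := gB_nonneg hS x
  have h2 : IN W x ^ 3 ≤ (2 * gB W L R κ x) ^ 3 := by
    rw [mul_pow]
    nlinarith [pow_nonneg h0 3]
  exact le_of_pow_le_pow_left₀ (by norm_num) (by positivity) h2

theorem gB_le_IN (hS : BSys W L R κ) (x : CV) : gB W L R κ x ≤ 2 / κ * IN W x := by
  have hκ := hS.κ0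
  refine le_of_forall_pos_le_add fun ε hε => ?_
  obtain ⟨F, h1, h2⟩ := IN_exists hS.fam (x := x) (A := IN W x + κ / 2 * ε)
    (by linarith [mul_pos (half_pos hκ) hε])
  set A : ℝ := IN W x + κ / 2 * ε with hA
  have hA0 : 0 ≤ A := add_nonneg (IN_nonneg hS.fam x) (by positivity)
  have h3 := fB_le hS F adm_zero
  rw [h1, ← gB_cube hS] at h3
  have h4 : cst W L R κ F (fun _ => 0) ≤ (2 / κ * A) ^ 3 := by
    have e : (2 / κ * A) ^ 3 = ∫ _t : TC, (2 / κ * A) ^ 3 ∂haar := by simp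
    rw [e]
    refine integral_mono ((int_pis hS F adm_zero 3).add (int_RL hS adm_zero).1)
      (integrable_const _) fun t => ?_
    show Pis (W t) (sc κ t) (AF F t - 0) ^ 3 + R t ^ 3 * L 0 ^ 3 ≤ (2 / κ * A) ^ 3
    rw [cost_L0 hS, sub_zero]
    have h5 := pis_AF_le hS F t
    have h6 : ‖1 - zz t‖ ≤ 2 := by
      have := norm_sub_le (1 : ℂ) (zz t)
      have h7 : ‖zz t‖ = 1 := by simp [zz]
      rw [h7, norm_one] at this
      linarith
    have h8 : κ⁻¹ * ‖1 - zz t‖ * W t (ev (zz t) F) ≤ 2 / κ * A := by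
      have h9 : κ⁻¹ * ‖1 - zz t‖ ≤ 2 / κ := by
        rw [div_eq_inv_mul]
        exact mul_le_mul_of_nonneg_left h6 (inv_nonneg.2 hκ.le)
      exact mul_le_mul h9 (h2 t) (hS.fam.nn t _) (by positivity)
    have h10 := pow_le_pow_left₀ (pis_nonneg _) (h5.trans h8) 3
    simpa using h10
  have h5 := le_of_pow_le_pow_left₀ (by norm_num) (by positivity) (h3.trans h4)
  refine h5.trans (le_of_eq ?_)
  rw [hA]
  field_simp

end Pool.Agent.HB
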