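import Pool.Agent.HB.B.Pisier
import Pool.Agent.HB.O.IN

/-!
# HB.B.Defs: the data of the energy construction
-/

open Finset Real MeasureTheory Polynomial

noncomputable section

namespace Pool.Agent.HB

structure BSys (W : TC → CV → ℝ) (L : CV → ℝ) (R : TC → ℝ) (κ : ℝ) : Prop where
  fam : Fam W
  Lnn : ∀ x, 0 ≤ L x
  Lsmul : ∀ (a : ℂ) x, L (a • x) = ‖a‖ * L x
  Ladd : ∀ x y, L (x + y) ≤ L x + L y
  LW : ∀ t x, L x ≤ W t x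
  Lres : ∀ (E : Set ℕ) x, L (res E x) ≤ L x
  Ldisj : ∀ (s : Finset ℕ) (x : ℕ → CV),
    (∀ r ∈ s, ∀ r' ∈ s, r ≠ r' → Disjoint (x r).support (x r').support) →
    L (∑ r ∈ s, x r) ^ 3 ≤ ∑ r ∈ s, L (x r) ^ 3
  Lsix : ∀ n y, L (res (Set.Iio n) y) ^ 6 + L (res (Set.Ici n) y) ^ 6 ≤ L y ^ 6
  Ltail : ∀ (n : ℕ) (y h : CV), (∀ i, i < n → h i = 0) →
    L (y + h) ^ 3 + L (y - h) ^ 3 - 2 * L y ^ 3 ≤ 34 * (L (res (Set.Ici n) y) + L h) * L h ^ 2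
  Lcont : ∀ F, IsCur F → Continuous fun t => L (F t)
  Rm : Measurable R
  R1 : ∀ t, 1 ≤ R t
  Rb : ∀ δ : ℝ, 0 < δ → ∃ B, ∀ t, δ ≤ ‖1 - zz t‖ → R t ≤ B
  RW : ∀ t, zz t ≠ 1 → ∀ x, W t x ≤ R t * L x
  κ0 : 0 < κ
  κ1 : κ ≤ 1 / 100
  ps : ∀ t, PsB (W t) (sc κ t)

/-- the admissible analytic curve of a polynomial -/
def AF (F : Pol) (t : TC) : CV := ((1 - zz t) ^ 6 : ℂ) • ev (zz t) F

/-- admissible continuous curves -/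
def AdmU (U : TC → CV) : Prop := IsCur U ∧ ∃ δ : ℝ, 0 < δ ∧ ∀ t, ‖1 - zz t‖ ≤ δ → U t = 0

/-- the energy -/
def cst (W : TC → CV → ℝ) (L : CV → ℝ) (R : TC → ℝ) (κ : ℝ) (F : Pol) (U : TC → CV) : ℝ :=
  ∫ t, (Pis (W t) (sc κ t) (AF F t - U t) ^ 3 + R t ^ 3 * L (U t) ^ 3) ∂haar

def fB (W : TC → CV → ℝ) (L : CV → ℝ) (R : TC → ℝ) (κ : ℝ) (x : CV) : ℝ :=
  sInf {c | ∃ (F : Pol) (U : TC → CV), ev 0 F = x ∧ AdmU U ∧ c = cst W L R κ F U}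

/-- the new norm -/
def gB (W : TC → CV → ℝ) (L : CV → ℝ) (R : TC → ℝ) (κ : ℝ) (x : CV) : ℝ :=
  (fB W L R κ x) ^ ((1 : ℝ) / 3)

theorem BSys.csm {W : TC → CV → ℝ} {L : CV → ℝ} {R : TC → ℝ} {κ : ℝ} (h : BSys W L R κ) (t : TC) :
    CSm (W t) := ⟨h.fam.nn t, h.fam.smul t, h.fam.add t⟩

theorem sc_nonneg {κ : ℝ} (h : 0 ≤ κ) (t : TC) : 0 ≤ sc κ t := by
  unfold sc; positivity

end Pool.Agent.HB
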