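import Pool.Agent.HB.B.Defs
import Pool.Agent.HB.M.Pis
import Pool.Agent.HB.L.Six

/-!
# HB.B.Inst: the data of our space satisfy `BSys`

PROOF.  `W = WW p H 0`, `L = Lf p = LG (Gam p)`, `R t = 3 * 2 ^ (1 / ‖1 - zz t‖ ^ 2)` (real power; `= 3` at `zz t = 1` by the convention `1/0 = 0`), `κ`
from `mt_main`.  `fam_WW`; `LG_*` lemmas with `good_gam`; `L_le_nrm`; `LG_disj`; `six_lower`; `smooth_tail`; `LG_cont`.
`Rm`: composition of measurable functions (`t ↦ ‖1 - zz t‖` continuous).  `Rb`: `1/‖·‖² ≤ 1/δ²`.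
`RW`: if `zz t` is on no arc, `W = L` (`nrm_off`), `R ≥ 1`.  On the arc `j`: `nrm³ ≤ 9 √m L³` (`nrm_le`), `m = 2^{M(2j+2)}`,
`M (2j+2) = 2^{20 N} = (2^{10N})² = 1/dd²` (`N = N (2j+1)`), `‖1 - zz t‖ ≤ 2 dd`, so `R ≥ 3 · 2^{1/(4 dd²)} = 3 · 2^{M/4}` and
`9 √m = 9 · 2^{M/2} ≤ 27 · 2^{3M/4} ≤ R³`.
-/

open Finset

namespace Pool.Agent.HB

/-- the radius function -/
private noncomputable def instR (t : TC) : ℝ := 3 * (2 : ℝ) ^ (1 / ‖1 - zz t‖ ^ 2)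

private theorem instR_meas : Measurable instR := by
  have h1 : Measurable fun t : TC => ‖1 - zz t‖ :=
    (continuous_const.sub zz_cont).norm.measurable
  have h2 : Measurable fun t : TC => 1 / ‖1 - zz t‖ ^ 2 := (h1.pow_const 2).const_div 1
  have h3 : Measurable fun x : ℝ => (2 : ℝ) ^ x :=
    (Real.continuous_const_rpow (by norm_num)).measurable
  exact (h3.comp h2).const_mul 3

private theorem instR_ge (t : TC) : 3 ≤ instR t := by
  have h1 : (1 : ℝ) ≤ (2 : ℝ) ^ (1 / ‖1 - zz t‖ ^ 2) :=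
    Real.one_le_rpow (by norm_num) (by positivity)
  unfold instR
  linarith

private theorem instR_b (δ : ℝ) (hδ : 0 < δ) (t : TC) (h : δ ≤ ‖1 - zz t‖) :
    instR t ≤ 3 * (2 : ℝ) ^ (1 / δ ^ 2) := by
  unfold instR
  have h1 : 1 / ‖1 - zz t‖ ^ 2 ≤ 1 / δ ^ 2 :=
    one_div_le_one_div_of_le (by positivity) (pow_le_pow_left₀ hδ.le h 2)
  have h2 : (2 : ℝ) ^ (1 / ‖1 - zz t‖ ^ 2) ≤ (2 : ℝ) ^ (1 / δ ^ 2) :=
    Real.rpow_le_rpow_of_exponent_le (by norm_num) h1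
  linarith

private theorem inst_sqrt_m (p : Par) (j : ℕ) :
    √(p.m (lc j)) = (2 : ℝ) ^ (((2 : ℝ) ^ (10 * p.N (2 * j + 1))) ^ 2 / 2) := by
  have h1 : p.M (lc j) = (2 ^ (10 * p.N (2 * j + 1))) ^ 2 := by
    show p.M (2 * j + 1 + 1) = _
    rw [p.hM (2 * j + 1), ← pow_mul]
    congr 1
    ring
  unfold Par.m
  rw [Real.sqrt_eq_rpow, ← Real.rpow_natCast, ← Real.rpow_mul (by norm_num), h1]
  congr 1
  push_cast
  ring

private theorem inst_arc (p : Par) (j : ℕ) (t : TC) (h : Arc p j (zz t)) (hz : zz t ≠ 1) :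
    9 * √(p.m (lc j)) ≤ instR t ^ 3 := by
  set Dd : ℝ := (2 : ℝ) ^ (10 * p.N (2 * j + 1)) with hDd
  have hD0 : 0 < Dd := by positivity
  have hdd : dd p j = 1 / Dd := by
    unfold dd
    rw [hDd, one_div_pow]
  have hpos : 0 < ‖1 - zz t‖ := by
    rw [norm_pos_iff]
    exact sub_ne_zero.2 (Ne.symm hz)
  have h1 : ‖1 - zz t‖ ≤ 2 / Dd := by
    have := h.2.2
    rw [hdd] at this
    calc ‖1 - zz t‖ ≤ 2 * (1 / Dd) := this
      _ = 2 / Dd := by ring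
  have h2 : Dd ^ 2 / 4 ≤ 1 / ‖1 - zz t‖ ^ 2 := by
    have h3 : ‖1 - zz t‖ ^ 2 ≤ (2 / Dd) ^ 2 := pow_le_pow_left₀ hpos.le h1 2
    have h4 : 1 / (2 / Dd) ^ 2 ≤ 1 / ‖1 - zz t‖ ^ 2 :=
      one_div_le_one_div_of_le (by positivity) h3
    have h5 : 1 / (2 / Dd) ^ 2 = Dd ^ 2 / 4 := by
      field_simp
      norm_num
    linarith
  have h3 : 3 * (2 : ℝ) ^ (Dd ^ 2 / 4) ≤ instR t := by
    unfold instR
    have := Real.rpow_le_rpow_of_exponent_le (x := 2) (by norm_num) h2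
    linarith
  have h4 : (3 * (2 : ℝ) ^ (Dd ^ 2 / 4)) ^ 3 ≤ instR t ^ 3 :=
    pow_le_pow_left₀ (by positivity) h3 3
  have h5 : (3 * (2 : ℝ) ^ (Dd ^ 2 / 4)) ^ 3 = 27 * (2 : ℝ) ^ (Dd ^ 2 / 2 + Dd ^ 2 / 4) := by
    rw [mul_pow, ← Real.rpow_natCast ((2 : ℝ) ^ (Dd ^ 2 / 4)) 3, ← Real.rpow_mul (by norm_num)]
    norm_num
    congr 1
    ring
  have h6 : √(p.m (lc j)) ≤ (2 : ℝ) ^ (Dd ^ 2 / 2 + Dd ^ 2 / 4) := by
    rw [inst_sqrt_m]
    refine Real.rpow_le_rpow_of_exponent_le (by norm_num) ?_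
    have : 0 ≤ Dd ^ 2 / 4 := by positivity
    linarith
  have h7 : 0 ≤ √(p.m (lc j)) := Real.sqrt_nonneg _
  linarith

private theorem inst_RW (p : Par) (H : ℕ → Pol) (t : TC) (hz : zz t ≠ 1) (x : CV) :
    WW p H 0 t x ≤ instR t * Lf p x := by
  have hL : 0 ≤ Lf p x := Lf_nonneg' p x
  have hR := instR_ge t
  have ht := norm_zz t
  rcases nrm3_cases (p := p) ht 0 with ⟨j, hj, ha⟩ | h
  · have h1 : nrm p H 0 (zz t) x ^ 3 ≤ 9 * √(p.m (lc j)) * Lf p x ^ 3 := nrm_le ha x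
    have h2 := inst_arc p j t ha hz
    have h3 : nrm p H 0 (zz t) x ^ 3 ≤ (instR t * Lf p x) ^ 3 := by
      rw [mul_pow]
      exact h1.trans (mul_le_mul_of_nonneg_right h2 (by positivity))
    exact le_of_pow_le_pow_left₀ (n := 3) (by norm_num) (mul_nonneg (by linarith) hL) h3
  · have h1 : WW p H 0 t x = Lf p x := nrm_off ht h x
    rw [h1]
    nlinarith

theorem bsys_exists : ∃ κ : ℝ, 0 < κ ∧ ∀ (p : Par) (H : ℕ → Pol),
    ∃ R : TC → ℝ, BSys (WW p H 0) (Lf p) R κ := by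
  obtain ⟨κ, hκ0, hκ1, hps⟩ := mt_main
  refine ⟨κ, hκ0, fun p H => ⟨instR, ?_⟩⟩
  have hg := good_gam p
  exact
    { fam := fam_WW p H 0
      Lnn := fun x => LG_nonneg hg x
      Lsmul := fun a x => LG_smul hg a x
      Ladd := fun x y => LG_add_le hg x y
      LW := fun t x => L_le_nrm (norm_zz t) x
      Lres := fun E x => LG_res_le hg E x
      Ldisj := fun s x hd => LG_disj hg s x hd
      Lsix := fun n y => six_lower hg n y
      Ltail := fun n y h hh => smooth_tail hg n y h hh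
      Lcont := fun F hF => by
        obtain ⟨⟨n, hn⟩, hc⟩ := hF
        exact LG_cont hg F n hn hc
      Rm := instR_meas
      R1 := fun t => by linarith [instR_ge t]
      Rb := fun δ hδ => ⟨_, fun t ht => instR_b δ hδ t ht⟩
      RW := fun t hz x => inst_RW p H t hz x
      κ0 := hκ0
      κ1 := hκ1
      ps := fun t => hps p H t }

end Pool.Agent.HB
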