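import Pool.Agent.HB.B.Defs

/-!
# HB.B.Meas: measurability and integrability of the energy density

PROOF of `meas_pis`.  Claim: for all `n` and all curves `F`, `t ↦ Ps (W t) (sc κ t) n (F t)` is lower semicontinuous.  `n = 0`: continuous
(`Fam.cont`).  `n+1`: it is the supremum over `h : CV` of `½(Ps n (F t + sc t • h) + Ps n (F t - sc t • h)) - W t h ^2`, each term is lower
semicontinuous by induction (`t ↦ F t ± sc κ t • h` are curves, `sc` is continuous) plus a continuous function; a bounded pointwise supremum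
of lower semicontinuous functions is lower semicontinuous (`lowerSemicontinuous_ciSup`, boundedness from `PsB`).  Same for `⨆ n`.
Lower semicontinuous functions are measurable (`LowerSemicontinuous.measurable`), then `√`, cube.
`pis_AF_le`: if `zz t ≠ 1`: `s = κ ‖1 - zz t‖^5 > 0`, `Pis ≤ W/s` (`pis_le`), `W t (AF F t) = ‖1 - zz t‖^6 W t (ev F)`, so
`≤ κ⁻¹ ‖1 - zz t‖ W t (ev F)`.  If `zz t = 1` then `AF F t = 0`, `Pis 0 = 0`.
`pis_U_bdd`: zero near `1`; elsewhere `Pis (U t) ≤ W t (U t)/(κ δ^5)`, and `W t (U t)` is continuous so bounded.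
`int_dens`: bounded and measurable; `R t ^3 * L (U t)^3` is zero near `1`, `R ≤ B` elsewhere.
-/

open Finset Real MeasureTheory Polynomial

namespace Pool.Agent.HB

variable {W : TC → CV → ℝ} {L : CV → ℝ} {R : TC → ℝ} {κ : ℝ}

private theorem meas_lsc (hS : BSys W L R κ) (n : ℕ) : ∀ {F : TC → CV}, IsCur F →
    LowerSemicontinuous fun t => Ps (W t) (sc κ t) n (F t) := by
  induction n with
  | zero =>
    intro F hF
    exact ((hS.fam.cont F hF).pow 2).lowerSemicontinuous
  | succ n ih =>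
    intro F hF
    have hsc : Continuous fun t => sc κ t :=
      continuous_const.mul ((continuous_const.sub zz_cont).norm.pow 5)
    change LowerSemicontinuous fun t => ⨆ h : CV,
      ((Ps (W t) (sc κ t) n (F t + sc κ t • h) + Ps (W t) (sc κ t) n (F t - sc κ t • h)) / 2 -
        W t h ^ 2)
    refine lowerSemicontinuous_ciSup (fun t => (hS.ps t).1 n (F t)) fun h => ?_
    have h1 := ih (cur_add hF (cur_rsmul (cur_const h) hsc))
    have h2 := ih (cur_sub hF (cur_rsmul (cur_const h) hsc))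
    have h3 := h1.add h2
    have h4 : LowerSemicontinuous fun t =>
        (Ps (W t) (sc κ t) n (F t + sc κ t • h) + Ps (W t) (sc κ t) n (F t - sc κ t • h)) / 2 := by
      have h5 : Continuous fun x : ℝ => x / 2 := continuous_id.div_const 2
      have h6 : Monotone fun x : ℝ => x / 2 := fun x y hxy => by
        simp only
        linarith
      exact h5.comp_lowerSemicontinuous h3 h6
    have h7 : Continuous fun t => -(W t h ^ 2) := ((hS.fam.cont _ (cur_const h)).pow 2).neg
    have h8 := h4.add h7.lowerSemicontinuous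
    simpa only [← sub_eq_add_neg] using h8

theorem meas_pis (hS : BSys W L R κ) {F : TC → CV} (hF : IsCur F) :
    Measurable fun t => Pis (W t) (sc κ t) (F t) := by
  have h1 : LowerSemicontinuous fun t => ⨆ n, Ps (W t) (sc κ t) n (F t) := by
    refine lowerSemicontinuous_ciSup (fun t => ?_) fun n => meas_lsc hS n hF
    obtain ⟨A, hA⟩ := (hS.ps t).2.2
    refine ⟨A (F t), ?_⟩
    rintro _ ⟨n, rfl⟩
    exact hA n (F t)
  exact Real.continuous_sqrt.measurable.comp h1.measurable

theorem cur_AF (F : Pol) : IsCur (AF F) :=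
  cur_smul (cur_ev F) ((continuous_const.sub zz_cont).pow 6)

theorem AF_add (F G : Pol) (t : TC) : AF (F + G) t = AF F t + AF G t := by
  unfold AF
  rw [ev_add, smul_add]

/-- `AF F` is the boundary value of the polynomial `(1 - X)^6 • F`, whose value at `0` is `ev 0 F`. -/
theorem AF_eq (F : Pol) : (∀ t, AF F t = ev (zz t) (((1 - X) ^ 6 : ℂ[X]) • F)) ∧
    ev 0 (((1 - X) ^ 6 : ℂ[X]) • F) = ev 0 F := by
  refine ⟨fun t => ?_, ?_⟩
  · rw [ev_smul]
    simp [AF]
  · rw [ev_smul]
    simp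

private theorem meas_pis_zero (hS : BSys W L R κ) (t : TC) : Pis (W t) (sc κ t) 0 = 0 := by
  have h := pis_smul (hS.csm t) (sc_nonneg hS.κ0.le t) (hS.ps t) 0 0
  simpa using h

theorem pis_AF_le (hS : BSys W L R κ) (F : Pol) (t : TC) :
    Pis (W t) (sc κ t) (AF F t) ≤ κ⁻¹ * ‖1 - zz t‖ * W t (ev (zz t) F) := by
  have hκ := hS.κ0
  have hW := hS.fam.nn t (ev (zz t) F)
  by_cases hz : zz t = 1
  · have h1 : AF F t = 0 := by
      unfold AF
      rw [hz]
      simp
    rw [h1, meas_pis_zero hS t]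
    positivity
  · have hz' : 0 < ‖1 - zz t‖ := norm_pos_iff.2 (sub_ne_zero.2 (Ne.symm hz))
    have hs : 0 < sc κ t := by
      unfold sc
      positivity
    have h1 := pis_le (hS.csm t) hs.le (hS.ps t) (AF F t)
    have h2 : W t (AF F t) = ‖1 - zz t‖ ^ 6 * W t (ev (zz t) F) := by
      unfold AF
      rw [hS.fam.smul, norm_pow]
    rw [h2] at h1
    have h3 : Pis (W t) (sc κ t) (AF F t) ≤
        (‖1 - zz t‖ ^ 6 * W t (ev (zz t) F)) / sc κ t := by
      rw [le_div_iff₀ hs, mul_comm]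
      exact h1
    refine h3.trans (le_of_eq ?_)
    unfold sc
    field_simp

private theorem meas_bdd {f : TC → ℝ} (hf : Continuous f) : ∃ B : ℝ, 0 ≤ B ∧ ∀ t, f t ≤ B := by
  obtain ⟨B, hB⟩ := isCompact_univ.exists_bound_of_continuousOn hf.continuousOn
  refine ⟨B, (norm_nonneg _).trans (hB 0 trivial), fun t => ?_⟩
  exact (le_abs_self _).trans (hB t trivial)

theorem pis_U_bdd (hS : BSys W L R κ) {U : TC → CV} (hU : AdmU U) :
    ∃ B : ℝ, ∀ t, Pis (W t) (sc κ t) (U t) ≤ B := by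
  obtain ⟨hc, δ, hδ, hU0⟩ := hU
  obtain ⟨B, hB0, hB⟩ := meas_bdd (hS.fam.cont U hc)
  have hκ := hS.κ0
  refine ⟨B / (κ * δ ^ 5), fun t => ?_⟩
  rcases le_or_gt ‖1 - zz t‖ δ with h | h
  · rw [hU0 t h, meas_pis_zero hS t]
    positivity
  · have hs : κ * δ ^ 5 ≤ sc κ t := by
      unfold sc
      gcongr
    have hs0 : 0 < κ * δ ^ 5 := by positivity
    have h1 := pis_le (hS.csm t) (hs0.le.trans hs) (hS.ps t) (U t)
    rw [le_div_iff₀ hs0]
    have h2 := mul_le_mul_of_nonneg_left hs (pis_nonneg (W := W t) (s := sc κ t) (U t))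
    have h3 := hB t
    linarith

theorem bdd_RL (hS : BSys W L R κ) {U : TC → CV} (hU : AdmU U) :
    ∃ B : ℝ, ∀ t, R t ^ 3 * L (U t) ^ 3 ≤ B ∧ R t * L (U t) ≤ B := by
  obtain ⟨hc, δ, hδ, hU0⟩ := hU
  obtain ⟨B, hB0, hB⟩ := meas_bdd (hS.Lcont U hc)
  obtain ⟨C, hC⟩ := hS.Rb δ hδ
  have hL0 : L 0 = 0 := by
    have h := hS.Lsmul 0 0
    simpa using h
  refine ⟨(max C 0) ^ 3 * B ^ 3 + max C 0 * B, fun t => ?_⟩
  have hM : 0 ≤ max C 0 := le_max_right _ _
  rcases le_or_gt ‖1 - zz t‖ δ with h | h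
  · rw [hU0 t h, hL0]
    constructor
    · rw [zero_pow three_ne_zero, mul_zero]
      positivity
    · rw [mul_zero]
      positivity
  · have h1 : R t ≤ max C 0 := (hC t h.le).trans (le_max_left _ _)
    have h2 : 0 ≤ R t := zero_le_one.trans (hS.R1 t)
    have h3 := hS.Lnn (U t)
    have h4 := hB t
    have h5 : R t ^ 3 * L (U t) ^ 3 ≤ (max C 0) ^ 3 * B ^ 3 := by gcongr
    have h6 : R t * L (U t) ≤ max C 0 * B := by gcongr
    have h7 : 0 ≤ (max C 0) ^ 3 * B ^ 3 := by positivity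
    have h8 : 0 ≤ max C 0 * B := by positivity
    exact ⟨by linarith, by linarith⟩

theorem int_pis (hS : BSys W L R κ) (F : Pol) {U : TC → CV} (hU : AdmU U) (k : ℕ) :
    Integrable (fun t => Pis (W t) (sc κ t) (AF F t - U t) ^ k) haar := by
  obtain ⟨B, hB⟩ := pis_U_bdd hS hU
  obtain ⟨C, hC0, hC⟩ := meas_bdd (hS.fam.cont _ (cur_ev F))
  have hκ := hS.κ0
  have hbd : ∀ t, Pis (W t) (sc κ t) (AF F t - U t) ≤ κ⁻¹ * 2 * C + B := by
    intro t
    have hs0 := sc_nonneg hκ.le t
    have h1 := pis_add (hS.csm t) hs0 (hS.ps t) (AF F t) (-(U t))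
    have h2 : Pis (W t) (sc κ t) (-(U t)) = Pis (W t) (sc κ t) (U t) := by
      have := pis_smul (hS.csm t) hs0 (hS.ps t) (-1) (U t)
      simpa using this
    rw [h2, ← sub_eq_add_neg] at h1
    have h3 := pis_AF_le hS F t
    have h4 : ‖1 - zz t‖ ≤ 2 := by
      have := norm_sub_le (1 : ℂ) (zz t)
      rw [norm_zz, norm_one] at this
      linarith
    have h5 : κ⁻¹ * ‖1 - zz t‖ * W t (ev (zz t) F) ≤ κ⁻¹ * 2 * C := by
      have := hS.fam.nn t (ev (zz t) F)
      have := hC t
      gcongr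
    have h6 := hB t
    linarith
  refine Integrable.of_bound ((meas_pis hS (cur_sub (cur_AF F) hU.1)).pow_const k).aestronglyMeasurable
    ((κ⁻¹ * 2 * C + B) ^ k) (Filter.Eventually.of_forall fun t => ?_)
  rw [Real.norm_eq_abs, abs_of_nonneg (pow_nonneg (pis_nonneg _) k)]
  exact pow_le_pow_left₀ (pis_nonneg _) (hbd t) k

theorem int_RL (hS : BSys W L R κ) {U : TC → CV} (hU : AdmU U) :
    Integrable (fun t => R t ^ 3 * L (U t) ^ 3) haar ∧ Integrable (fun t => R t * L (U t)) haar := by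
  obtain ⟨B, hB⟩ := bdd_RL hS hU
  have hL : Measurable fun t => L (U t) := (hS.Lcont U hU.1).measurable
  have hR := hS.Rm
  have h0 : ∀ t, 0 ≤ R t := fun t => zero_le_one.trans (hS.R1 t)
  constructor
  · refine Integrable.of_bound ((hR.pow_const 3).mul (hL.pow_const 3)).aestronglyMeasurable B
      (Filter.Eventually.of_forall fun t => ?_)
    rw [Real.norm_eq_abs, abs_of_nonneg (mul_nonneg (pow_nonneg (h0 t) 3)
      (pow_nonneg (hS.Lnn _) 3))]
    exact (hB t).1
  · refine Integrable.of_bound (hR.mul hL).aestronglyMeasurable B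
      (Filter.Eventually.of_forall fun t => ?_)
    rw [Real.norm_eq_abs, abs_of_nonneg (mul_nonneg (h0 t) (hS.Lnn _))]
    exact (hB t).2

end Pool.Agent.HB
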