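import Pool.Agent.HB.M.Pis

/-!
# HB.B.Pisier: the Pisier renorming

`Pis W s x = √(⨆ n, Ps W s n x)`, for a complex seminorm `W`, `s ≥ 0`, `PsB W s`.

PROOFS.
* `Ps` is nondecreasing in `n` (`h = 0`, `W 0 = 0`), `Ps n ≥ W²`; `⨆ n` is bounded by the third part of `PsB`; `s² ⨆ ≤ W²`.
* `Ps n (a • x) = ‖a‖² Ps n x`: induction; `a = 0`: `Ps n 0 = 0` (`≥ 0` and by induction `Ps (n+1) 0 = sup_h (½(Ps n (s h) + Ps n (-s h)) - W(h)²)`
  `≤ sup (s² ... )`: if `s > 0`, `Ps n (s h) ≤ s^{-2} W(s h)² = W(h)²`; if `s = 0` it is `Ps n 0 - W(h)² ≤ 0`); `a ≠ 0`: reindex `h ↦ a • h`.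
* convexity of `Ps n` on the real space: sup of convex functions minus constants; `⨆ n Ps n` convex.
* `pis_add`: `f = Pis²` is convex, `f (a x) = a² f x`.  For `u = Pis x`, `v = Pis y`, `u+v > 0`: if `u, v > 0`
  `x + y = (u+v) ((u/(u+v)) (x/u) + (v/(u+v)) (y/v))`, so `f (x+y) ≤ (u+v)² · 1`; if `u = 0`: `f(x+y) = f(½(2x) + ½(2y)) `... use
  `x + y = λ (x/λ) + (1-λ) (y/(1-λ))`, `f(x+y) ≤ u²/λ + v²/(1-λ)` and let `λ → u/(u+v)` (or `λ → 0`).
* `pis_mid`: for all `m`: `½(Ps m (x+s h) + Ps m (x - s h)) - W(h)² ≤ Ps (m+1) x ≤ Pis(x)²`; let `m → ∞` (monotone).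
* `pis_cube`: `b = W h`, `u = Pis x`, `u± = Pis(x ± s h)`, `|u± - u| ≤ Pis(s h) = s Pis h ≤ b`, `½(u₊²+u₋²) ≤ u² + b²`.  With
  `u± = u + e±`: `2u ē ≤ b²` (`ē` mean of `e±`), so `½ ∑ u±³ = u³ + 3u² ē + 3u mean(e²) + mean(e³) ≤ u³ + (3/2) u b² + 3 u b² + b³ ≤ u³ + 5(u+b)b²`.
-/

open Finset Real

noncomputable section

namespace Pool.Agent.HB

def Pis (W : CV → ℝ) (s : ℝ) (x : CV) : ℝ := √(⨆ n, Ps W s n x)

/-- complex seminorms -/
structure CSm (W : CV → ℝ) : Prop where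
  nn : ∀ x, 0 ≤ W x
  smul : ∀ (a : ℂ) x, W (a • x) = ‖a‖ * W x
  add : ∀ x y, W (x + y) ≤ W x + W y

variable {W : CV → ℝ} {s : ℝ}

theorem pis_nonneg (x : CV) : 0 ≤ Pis W s x := Real.sqrt_nonneg _

private theorem pis_W0 (hW : CSm W) : W 0 = 0 := by
  have := hW.smul 0 0
  simpa using this

private theorem pis_rs (a : ℝ) (x : CV) : ((a : ℂ) • x : CV) = a • x := by
  ext i
  simp

private theorem pis_Wr (hW : CSm W) (a : ℝ) (x : CV) : W (a • x) = |a| * W x := by
  rw [← pis_rs, hW.smul, Complex.norm_real, Real.norm_eq_abs]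

private theorem pis_mono1 (hW : CSm W) (hB : PsB W s) (n : ℕ) (x : CV) :
    Ps W s n x ≤ Ps W s (n + 1) x := by
  have h1 := le_ciSup (hB.1 n x) 0
  simp only [smul_zero, add_zero, sub_zero, pis_W0 hW] at h1
  have h2 : Ps W s (n + 1) x =
    ⨆ h : CV, ((Ps W s n (x + s • h) + Ps W s n (x - s • h)) / 2 - W h ^ 2) := rfl
  rw [h2]
  linarith

private theorem pis_mono (hW : CSm W) (hB : PsB W s) (x : CV) : Monotone fun n => Ps W s n x :=
  monotone_nat_of_le_succ fun n => pis_mono1 hW hB n x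

private theorem pis_sq_le (hW : CSm W) (hB : PsB W s) (n : ℕ) (x : CV) :
    W x ^ 2 ≤ Ps W s n x := pis_mono hW hB x (Nat.zero_le n)

private theorem pis_bdd (hB : PsB W s) (x : CV) : BddAbove (Set.range fun n => Ps W s n x) := by
  obtain ⟨A, hA⟩ := hB.2.2
  refine ⟨A x, ?_⟩
  rintro _ ⟨n, rfl⟩
  exact hA n x

private def pF (W : CV → ℝ) (s : ℝ) (x : CV) : ℝ := ⨆ n, Ps W s n x

private theorem pis_eq (x : CV) : Pis W s x = √(pF W s x) := rfl

private theorem pF_ge (hB : PsB W s) (n : ℕ) (x : CV) : Ps W s n x ≤ pF W s x :=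
  le_ciSup (pis_bdd hB x) n

private theorem pF_ge0 (hW : CSm W) (hB : PsB W s) (x : CV) : W x ^ 2 ≤ pF W s x :=
  (pis_sq_le hW hB 0 x).trans (pF_ge hB 0 x)

private theorem pF_nonneg (hW : CSm W) (hB : PsB W s) (x : CV) : 0 ≤ pF W s x :=
  (sq_nonneg _).trans (pF_ge0 hW hB x)

private theorem pis_sq (hW : CSm W) (hB : PsB W s) (x : CV) : Pis W s x ^ 2 = pF W s x := by
  rw [pis_eq, Real.sq_sqrt (pF_nonneg hW hB x)]

private theorem pF_le (hs : 0 ≤ s) (hB : PsB W s) (x : CV) :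
    s ^ 2 * pF W s x ≤ W x ^ 2 := by
  rw [pF, Real.mul_iSup_of_nonneg (sq_nonneg s)]
  exact ciSup_le fun n => hB.2.1 n x

theorem pis_ge (hW : CSm W) (hs : 0 ≤ s) (hB : PsB W s) (x : CV) : W x ≤ Pis W s x :=
  (le_abs_self _).trans (Real.abs_le_sqrt (pF_ge0 hW hB x))

theorem pis_le (hW : CSm W) (hs : 0 ≤ s) (hB : PsB W s) (x : CV) : s * Pis W s x ≤ W x := by
  have h1 : (s * Pis W s x) ^ 2 ≤ W x ^ 2 := by
    rw [mul_pow, pis_sq hW hB]
    exact pF_le hs hB x
  exact abs_le_of_sq_le_sq' h1 (hW.nn x) |>.2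

private theorem ps_smul (hW : CSm W) {a : ℂ} (ha : a ≠ 0) (n : ℕ) (x : CV) :
    Ps W s n (a • x) = ‖a‖ ^ 2 * Ps W s n x := by
  induction n generalizing x with
  | zero => simp only [Ps, hW.smul, mul_pow]
  | succ n ih =>
    have h0 : Function.Surjective fun h : CV => a • h := fun y =>
      ⟨a⁻¹ • y, by simp only [smul_smul, mul_inv_cancel₀ ha, one_smul]⟩
    simp only [Ps]
    rw [Real.mul_iSup_of_nonneg (sq_nonneg _), ← h0.iSup_comp]
    refine iSup_congr fun h => ?_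
    have h1 : s • a • h = a • s • h := smul_comm s a h
    rw [h1, ← smul_add, ← smul_sub, ih, ih, hW.smul, mul_pow]
    ring

private theorem ps_zero (hW : CSm W) (hs : 0 ≤ s) (hB : PsB W s) (n : ℕ) :
    Ps W s n 0 = 0 := by
  have h0 := pis_W0 hW
  refine le_antisymm ?_ ((sq_nonneg _).trans (pis_sq_le hW hB n 0))
  rcases hs.eq_or_lt with rfl | hs
  · induction n with
    | zero => simp [Ps, h0]
    | succ n ih =>
      simp only [Ps, zero_smul, add_zero, sub_zero]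
      refine ciSup_le fun h => ?_
      have := sq_nonneg (W h)
      linarith
  · have h1 := hB.2.1 n 0
    rw [h0] at h1
    have hs2 : 0 < s ^ 2 := by positivity
    by_contra hc
    push Not at hc
    have := mul_pos hs2 hc
    norm_num at h1
    linarith

private theorem pF_smul (hW : CSm W) (hs : 0 ≤ s) (hB : PsB W s) (a : ℂ) (x : CV) :
    pF W s (a • x) = ‖a‖ ^ 2 * pF W s x := by
  rcases eq_or_ne a 0 with rfl | ha
  · simp only [zero_smul, norm_zero, ne_eq, OfNat.ofNat_ne_zero, not_false_eq_true, zero_pow,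
      zero_mul, pF, ps_zero hW hs hB, ciSup_const]
  · rw [pF, pF, Real.mul_iSup_of_nonneg (sq_nonneg _)]
    exact iSup_congr fun n => ps_smul hW ha n x

theorem pis_smul (hW : CSm W) (hs : 0 ≤ s) (hB : PsB W s) (a : ℂ) (x : CV) :
    Pis W s (a • x) = ‖a‖ * Pis W s x := by
  rw [pis_eq, pis_eq, pF_smul hW hs hB, Real.sqrt_mul (sq_nonneg _),
    Real.sqrt_sq (norm_nonneg a)]

private theorem ps_conv (hW : CSm W) (hB : PsB W s) {l m : ℝ} (hl : 0 ≤ l) (hm : 0 ≤ m)
    (hlm : l + m = 1) (n : ℕ) (x y : CV) :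
    Ps W s n (l • x + m • y) ≤ l * Ps W s n x + m * Ps W s n y := by
  induction n generalizing x y with
  | zero =>
    simp only [Ps]
    have h1 : W (l • x + m • y) ≤ l * W x + m * W y := by
      refine (hW.add _ _).trans ?_
      rw [pis_Wr hW, pis_Wr hW, abs_of_nonneg hl, abs_of_nonneg hm]
    have h2 : W (l • x + m • y) ^ 2 ≤ (l * W x + m * W y) ^ 2 :=
      pow_le_pow_left₀ (hW.nn _) h1 2
    have h3 : l * W x ^ 2 + m * W y ^ 2 - (l * W x + m * W y) ^ 2 =
        l * m * (W x - W y) ^ 2 := by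
      have : m = 1 - l := by linarith
      subst this
      ring
    have h4 : 0 ≤ l * m * (W x - W y) ^ 2 := by positivity
    linarith
  | succ n ih =>
    refine ciSup_le fun h => ?_
    have e1 : l • x + m • y + s • h = l • (x + s • h) + m • (y + s • h) := by
      rw [smul_add, smul_add]
      have : s • h = l • s • h + m • s • h := by rw [← add_smul, hlm, one_smul]
      nth_rewrite 1 [this]
      abel
    have e2 : l • x + m • y - s • h = l • (x - s • h) + m • (y - s • h) := by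
      rw [smul_sub, smul_sub]
      have : s • h = l • s • h + m • s • h := by rw [← add_smul, hlm, one_smul]
      nth_rewrite 1 [this]
      abel
    rw [e1, e2]
    have h1 := ih (x + s • h) (y + s • h)
    have h2 := ih (x - s • h) (y - s • h)
    have h3 : (Ps W s n (x + s • h) + Ps W s n (x - s • h)) / 2 - W h ^ 2 ≤ Ps W s (n + 1) x :=
      le_ciSup (hB.1 n x) h
    have h4 : (Ps W s n (y + s • h) + Ps W s n (y - s • h)) / 2 - W h ^ 2 ≤ Ps W s (n + 1) y :=
      le_ciSup (hB.1 n y) h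
    have h5 := mul_le_mul_of_nonneg_left h3 hl
    have h6 := mul_le_mul_of_nonneg_left h4 hm
    have h7 : l * W h ^ 2 + m * W h ^ 2 = W h ^ 2 := by rw [← add_mul, hlm, one_mul]
    linarith

private theorem pF_conv (hW : CSm W) (hB : PsB W s) {l m : ℝ} (hl : 0 ≤ l) (hm : 0 ≤ m)
    (hlm : l + m = 1) (x y : CV) :
    pF W s (l • x + m • y) ≤ l * pF W s x + m * pF W s y := by
  refine ciSup_le fun n => (ps_conv hW hB hl hm hlm n x y).trans ?_
  exact add_le_add (mul_le_mul_of_nonneg_left (pF_ge hB n x) hl)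
    (mul_le_mul_of_nonneg_left (pF_ge hB n y) hm)

theorem pis_add (hW : CSm W) (hs : 0 ≤ s) (hB : PsB W s) (x y : CV) :
    Pis W s (x + y) ≤ Pis W s x + Pis W s y := by
  refine le_of_forall_pos_le_add fun ε hε => ?_
  set u := Pis W s x + ε / 2 with hu
  set v := Pis W s y + ε / 2 with hv
  have hu0 : 0 < u := by
    have := pis_nonneg (W := W) (s := s) x
    linarith
  have hv0 : 0 < v := by
    have := pis_nonneg (W := W) (s := s) y
    linarith
  have huv : 0 < u + v := by linarith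
  have hl : 0 < u / (u + v) := by positivity
  have hm : 0 < v / (u + v) := by positivity
  have hlm : u / (u + v) + v / (u + v) = 1 := by
    field_simp
  have h1 := pF_conv hW hB hl.le hm.le hlm ((u / (u + v))⁻¹ • x) ((v / (u + v))⁻¹ • y)
  rw [smul_smul, smul_smul, mul_inv_cancel₀ hl.ne', mul_inv_cancel₀ hm.ne', one_smul, one_smul,
    ← pis_rs, ← pis_rs, pF_smul hW hs hB, pF_smul hW hs hB, ← pis_sq hW hB x,
    ← pis_sq hW hB y, Complex.norm_real, Complex.norm_real, Real.norm_eq_abs, Real.norm_eq_abs,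
    sq_abs, sq_abs] at h1
  have h2 : Pis W s x ^ 2 ≤ u ^ 2 := pow_le_pow_left₀ (pis_nonneg x) (by linarith) 2
  have h3 : Pis W s y ^ 2 ≤ v ^ 2 := pow_le_pow_left₀ (pis_nonneg y) (by linarith) 2
  have h4 : u / (u + v) * ((u / (u + v))⁻¹ ^ 2 * Pis W s x ^ 2) ≤ u * (u + v) := by
    calc u / (u + v) * ((u / (u + v))⁻¹ ^ 2 * Pis W s x ^ 2)
        ≤ u / (u + v) * ((u / (u + v))⁻¹ ^ 2 * u ^ 2) := by gcongr
      _ = u * (u + v) := by field_simp
  have h5 : v / (u + v) * ((v / (u + v))⁻¹ ^ 2 * Pis W s y ^ 2) ≤ v * (u + v) := by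
    calc v / (u + v) * ((v / (u + v))⁻¹ ^ 2 * Pis W s y ^ 2)
        ≤ v / (u + v) * ((v / (u + v))⁻¹ ^ 2 * v ^ 2) := by gcongr
      _ = v * (u + v) := by field_simp
  have h6 : pF W s (x + y) ≤ (u + v) ^ 2 := by
    calc pF W s (x + y) ≤ _ := h1
      _ ≤ u * (u + v) + v * (u + v) := add_le_add h4 h5
      _ = (u + v) ^ 2 := by ring
  have h7 : Pis W s (x + y) ≤ u + v := by
    rw [pis_eq]
    exact Real.sqrt_le_iff.2 ⟨huv.le, h6⟩
  linarith

private theorem pis_mid (hW : CSm W) (hB : PsB W s) (x h : CV) :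
    pF W s (x + s • h) + pF W s (x - s • h) ≤ 2 * pF W s x + 2 * W h ^ 2 := by
  have h1 : ∀ m m', Ps W s m (x + s • h) + Ps W s m' (x - s • h) ≤
      2 * pF W s x + 2 * W h ^ 2 := by
    intro m m'
    have h2 := pis_mono hW hB (x + s • h) (le_max_left m m')
    have h3 := pis_mono hW hB (x - s • h) (le_max_right m m')
    have h4 : (Ps W s (max m m') (x + s • h) + Ps W s (max m m') (x - s • h)) / 2 - W h ^ 2 ≤
      Ps W s (max m m' + 1) x := le_ciSup (hB.1 _ x) h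
    have h5 := pF_ge hB (max m m' + 1) x
    simp only at h2 h3
    linarith
  have h2 : ∀ m', pF W s (x + s • h) ≤ 2 * pF W s x + 2 * W h ^ 2 - Ps W s m' (x - s • h) := by
    intro m'
    refine ciSup_le fun m => ?_
    have := h1 m m'
    linarith
  have h3 : pF W s (x - s • h) ≤ 2 * pF W s x + 2 * W h ^ 2 - pF W s (x + s • h) := by
    refine ciSup_le fun m => ?_
    have := h2 m
    linarith
  linarith

private theorem pis_cube_alg {u p m b : ℝ} (hu : 0 ≤ u) (hb : 0 ≤ b)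
    (h1 : p ^ 2 + m ^ 2 ≤ 2 * u ^ 2 + 2 * b ^ 2) (hp : |p - u| ≤ b) (hm : |m - u| ≤ b) :
    p ^ 3 + m ^ 3 - 2 * u ^ 3 ≤ 10 * (u + b) * b ^ 2 := by
  set e := p - u with he
  set f := m - u with hf
  have hpe : p = u + e := by rw [he]; ring
  have hmf : m = u + f := by rw [hf]; ring
  have he2 : e ^ 2 ≤ b ^ 2 := sq_le_sq' (abs_le.1 hp).1 (abs_le.1 hp).2
  have hf2 : f ^ 2 ≤ b ^ 2 := sq_le_sq' (abs_le.1 hm).1 (abs_le.1 hm).2
  have he3 : e ^ 3 ≤ b ^ 3 := by
    have h2 : e ^ 3 ≤ |e| ^ 3 := by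
      rw [← abs_pow]
      exact le_abs_self _
    exact h2.trans (pow_le_pow_left₀ (abs_nonneg _) hp 3)
  have hf3 : f ^ 3 ≤ b ^ 3 := by
    have h2 : f ^ 3 ≤ |f| ^ 3 := by
      rw [← abs_pow]
      exact le_abs_self _
    exact h2.trans (pow_le_pow_left₀ (abs_nonneg _) hm 3)
  rw [hpe, hmf] at h1 ⊢
  have h2 : u * (e + f) ≤ b ^ 2 := by nlinarith [sq_nonneg e, sq_nonneg f]
  have h3 := mul_le_mul_of_nonneg_left h2 hu
  have h4 := mul_le_mul_of_nonneg_left he2 hu
  have h5 := mul_le_mul_of_nonneg_left hf2 hu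
  have h6 : 0 ≤ u * b ^ 2 := by positivity
  have h7 : 0 ≤ b ^ 3 := by positivity
  nlinarith

theorem pis_cube (hW : CSm W) (hs : 0 ≤ s) (hB : PsB W s) (x h : CV) :
    Pis W s (x + s • h) ^ 3 + Pis W s (x - s • h) ^ 3 - 2 * Pis W s x ^ 3 ≤
      10 * (Pis W s x + W h) * W h ^ 2 := by
  have h0 : Pis W s (s • h) ≤ W h := by
    rw [← pis_rs, pis_smul hW hs hB, Complex.norm_real, Real.norm_eq_abs, abs_of_nonneg hs]
    exact pis_le hW hs hB h
  have h0' : Pis W s (-(s • h)) ≤ W h := by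
    have e : (-(s • h) : CV) = (-1 : ℂ) • (s • h) := by simp
    rw [e, pis_smul hW hs hB, norm_neg, norm_one, one_mul]
    exact h0
  refine pis_cube_alg (pis_nonneg x) (hW.nn h) ?_ ?_ ?_
  · rw [pis_sq hW hB, pis_sq hW hB, pis_sq hW hB]
    exact pis_mid hW hB x h
  · rw [abs_le]
    constructor
    · have h1 := pis_add hW hs hB (x + s • h) (-(s • h))
      rw [add_neg_cancel_right] at h1
      linarith
    · have h1 := pis_add hW hs hB x (s • h)
      linarith
  · rw [abs_le]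
    constructor
    · have h1 := pis_add hW hs hB (x - s • h) (s • h)
      rw [sub_add_cancel] at h1
      linarith
    · have h1 := pis_add hW hs hB x (-(s • h))
      rw [← sub_eq_add_neg] at h1
      linarith

end Pool.Agent.HB
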