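import Pool.Agent.HB.B.Cost

/-!
# HB.B.SecA: second differences of `fB`

PROOF.  `h = 0` trivial.  Let `η > 0`, `(F, U)` with `cst ≤ fB x + η`, `A = 2 IN W h > IN W h > 0`, `H0` with `ev 0 H0 = h`, `W t (ev H0) ≤ A`.
`fB (x ± h) ≤ cst (F ± H0) U`.  For `zz t ≠ 1`, with `s = sc κ t > 0`: `AF H0 t = s • h'`, `h' = ((1 - zz t)^6/(κ ‖1 - zz t‖^5)) • ev H0`,
`W t h' ≤ κ⁻¹ ‖1 - zz t‖ A ≤ 2A/κ`; `pis_cube` with `D = AF F t - U t`:
`Pis(D + AF H0)³ + Pis(D - AF H0)³ - 2 Pis(D)³ ≤ 10 (Pis D + 2A/κ)(2A/κ)²`.  Integrate (a.e. `t`), `∫ Pis D ≤ (∫ Pis D ^3)^{1/3} ≤ (fB x + η)^{1/3}`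
(Jensen / Hölder on a probability space), `A ≤ 4 gB h` (`IN_le_gB`), `η → 0`:
`fB(x+h)+fB(x-h)-2fB x ≤ 10 (gB x + 8 gB h/κ)(8 gB h/κ)²`.
-/

open Finset Real MeasureTheory Polynomial

namespace Pool.Agent.HB

variable {W : TC → CV → ℝ} {L : CV → ℝ} {R : TC → ℝ} {κ : ℝ}

private theorem secA_AF_sub (F H : Pol) (t : TC) :
    AF (F + (C (-1) : ℂ[X]) • H) t = AF F t - AF H t := by
  rw [AF_add, sub_eq_add_neg]
  congr 1
  unfold AF
  rw [ev_smul, eval_C, smul_comm, neg_smul, one_smul]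

/-- the pointwise estimate -/
private theorem secA_pt (hS : BSys W L R κ) (H : Pol) {t : TC} (ht : zz t ≠ 1) {A : ℝ}
    (hA : W t (ev (zz t) H) ≤ A) (D : CV) :
    Pis (W t) (sc κ t) (D + AF H t) ^ 3 + Pis (W t) (sc κ t) (D - AF H t) ^ 3 -
      2 * Pis (W t) (sc κ t) D ^ 3 ≤
      10 * (Pis (W t) (sc κ t) D + 2 / κ * A) * (2 / κ * A) ^ 2 := by
  have hκ := hS.κ0
  have hr : 0 < ‖1 - zz t‖ := norm_pos_iff.2 (sub_ne_zero.2 (Ne.symm ht))
  have hr2 : ‖1 - zz t‖ ≤ 2 := by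
    have := norm_sub_le (1 : ℂ) (zz t)
    have h7 : ‖zz t‖ = 1 := by simp [zz]
    rw [h7, norm_one] at this
    linarith
  have hs : 0 < sc κ t := by unfold sc; positivity
  set s : ℝ := sc κ t with hs'
  set c : ℂ := (1 - zz t) ^ 6 / (s : ℂ) with hc
  have hcn : ‖c‖ = κ⁻¹ * ‖1 - zz t‖ := by
    rw [hc, norm_div, norm_pow, Complex.norm_real, Real.norm_eq_abs, abs_of_pos hs, hs']
    unfold sc
    field_simp
  have e1 : AF H t = s • (c • ev (zz t) H) := by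
    unfold AF
    have h1 : (s • (c • ev (zz t) H) : CV) = ((s : ℂ) * c) • ev (zz t) H := by
      ext i
      simp [mul_assoc]
    rw [h1, hc, mul_div_cancel₀]
    exact_mod_cast hs.ne'
  have h2 := pis_cube (hS.csm t) hs.le (hS.ps t) D (c • ev (zz t) H)
  rw [← e1] at h2
  refine h2.trans ?_
  have hw0 : 0 ≤ W t (c • ev (zz t) H) := hS.fam.nn t _
  have hw : W t (c • ev (zz t) H) ≤ 2 / κ * A := by
    rw [hS.fam.smul, hcn]
    have h9 : κ⁻¹ * ‖1 - zz t‖ ≤ 2 / κ := by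
      rw [div_eq_inv_mul]
      exact mul_le_mul_of_nonneg_left hr2 (inv_nonneg.2 hκ.le)
    exact mul_le_mul h9 hA (hS.fam.nn t _) (by positivity)
  have hp := pis_nonneg (W := W t) (s := s) D
  have h3 : W t (c • ev (zz t) H) ^ 2 ≤ (2 / κ * A) ^ 2 := pow_le_pow_left₀ hw0 hw 2
  exact mul_le_mul (by linarith) h3 (by positivity)
    (mul_nonneg (by norm_num) (add_nonneg hp (hw0.trans hw)))

/-- the integrated estimate -/
private theorem secA_int (hS : BSys W L R κ) (x h : CV) {A g : ℝ} (hA : 0 < A) (hg : 0 < g)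
    (hAh : IN W h < A) (hgx : fB W L R κ x < g ^ 3) :
    fB W L R κ (x + h) + fB W L R κ (x - h) - 2 * fB W L R κ x ≤
      10 * (g + 2 / κ * A) * (2 / κ * A) ^ 2 + 2 * (g ^ 3 - fB W L R κ x) := by
  have hκ := hS.κ0
  obtain ⟨F, U, hF, hU, hc⟩ := fB_exists hS x (η := g ^ 3 - fB W L R κ x) (by linarith)
  obtain ⟨H, hH, hHA⟩ := IN_exists hS.fam hAh
  have h1 := fB_le hS (F + H) hU
  have h2 := fB_le hS (F + (C (-1) : ℂ[X]) • H) hU
  rw [ev_add, hF, hH] at h1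
  rw [ev_add, ev_smul, eval_C, hF, hH, neg_smul, one_smul, ← sub_eq_add_neg] at h2
  rw [cst_eq hS _ hU] at h1 h2
  rw [cst_eq hS F hU] at hc
  set B : ℝ := 2 / κ * A with hB
  have hB0 : 0 < B := by positivity
  have hRL : 0 ≤ ∫ t, R t ^ 3 * L (U t) ^ 3 ∂haar := by
    refine integral_nonneg fun t => ?_
    exact mul_nonneg (pow_nonneg (zero_le_one.trans (hS.R1 t)) 3) (pow_nonneg (hS.Lnn _) 3)
  have i1 := int_pis hS F hU 1
  simp only [pow_one] at i1
  have i3 := int_pis hS F hU 3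
  have j1 := int_pis hS (F + H) hU 3
  have j2 := int_pis hS (F + (C (-1) : ℂ[X]) • H) hU 3
  have h3 : (∫ t, Pis (W t) (sc κ t) (AF (F + H) t - U t) ^ 3 ∂haar) +
      (∫ t, Pis (W t) (sc κ t) (AF (F + (C (-1) : ℂ[X]) • H) t - U t) ^ 3 ∂haar) -
      2 * (∫ t, Pis (W t) (sc κ t) (AF F t - U t) ^ 3 ∂haar) ≤
      ∫ t, 10 * (Pis (W t) (sc κ t) (AF F t - U t) + B) * B ^ 2 ∂haar := by
    have j12 : Integrable (fun t => Pis (W t) (sc κ t) (AF (F + H) t - U t) ^ 3 +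
        Pis (W t) (sc κ t) (AF (F + (C (-1) : ℂ[X]) • H) t - U t) ^ 3) haar := j1.add j2
    rw [← integral_const_mul, ← integral_add j1 j2, ← integral_sub j12 (i3.const_mul 2)]
    refine integral_mono_ae (j12.sub (i3.const_mul 2))
      (((i1.add (integrable_const B)).const_mul 10).mul_const (B ^ 2)) ?_
    have hae : ∀ᵐ t ∂haar, ¬ zz t = 1 := by
      rw [ae_iff]
      simpa only [not_not] using haar_one
    filter_upwards [hae] with t ht
    have h4 := secA_pt hS H ht (hHA t) (AF F t - U t)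
    rw [secA_AF_sub, AF_add]
    have e1 : AF F t + AF H t - U t = AF F t - U t + AF H t := by abel
    have e2 : AF F t - AF H t - U t = AF F t - U t - AF H t := by abel
    rw [e1, e2]
    exact h4
  have h4 : ∫ t, 10 * (Pis (W t) (sc κ t) (AF F t - U t) + B) * B ^ 2 ∂haar =
      10 * ((∫ t, Pis (W t) (sc κ t) (AF F t - U t) ∂haar) + B) * B ^ 2 := by
    rw [integral_mul_const, integral_const_mul, integral_add i1 (integrable_const B)]
    simp
  have h5 : ∫ t, Pis (W t) (sc κ t) (AF F t - U t) ∂haar ≤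
      ((∫ t, Pis (W t) (sc κ t) (AF F t - U t) ^ 3 ∂haar) + 2 * g ^ 3) / (3 * g ^ 2) := by
    have e : ((∫ t, Pis (W t) (sc κ t) (AF F t - U t) ^ 3 ∂haar) + 2 * g ^ 3) / (3 * g ^ 2) =
        ∫ t, (Pis (W t) (sc κ t) (AF F t - U t) ^ 3 + 2 * g ^ 3) / (3 * g ^ 2) ∂haar := by
      rw [integral_div, integral_add i3 (integrable_const _)]
      simp
    rw [e]
    refine integral_mono i1 ((i3.add (integrable_const _)).div_const _) fun t => ?_
    show Pis (W t) (sc κ t) (AF F t - U t) ≤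
      (Pis (W t) (sc κ t) (AF F t - U t) ^ 3 + 2 * g ^ 3) / (3 * g ^ 2)
    have hp := pis_nonneg (W := W t) (s := sc κ t) (AF F t - U t)
    set p := Pis (W t) (sc κ t) (AF F t - U t)
    rw [le_div_iff₀ (by positivity)]
    nlinarith [mul_nonneg (by positivity : 0 ≤ p + 2 * g) (sq_nonneg (p - g))]
  have h6 : ∫ t, Pis (W t) (sc κ t) (AF F t - U t) ∂haar ≤ g := by
    refine h5.trans ?_
    rw [div_le_iff₀ (by positivity)]
    have : g * (3 * g ^ 2) = g ^ 3 + 2 * g ^ 3 := by ring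
    rw [this]
    linarith
  have h7 : 10 * ((∫ t, Pis (W t) (sc κ t) (AF F t - U t) ∂haar) + B) * B ^ 2 ≤
      10 * (g + B) * B ^ 2 := by
    refine mul_le_mul_of_nonneg_right ?_ (by positivity)
    linarith
  rw [h4] at h3
  linarith

theorem sec_diff (hS : BSys W L R κ) : ∃ C : ℝ, 0 < C ∧ ∀ x h : CV,
    fB W L R κ (x + h) + fB W L R κ (x - h) - 2 * fB W L R κ x ≤
      C * (gB W L R κ x + gB W L R κ h) * gB W L R κ h ^ 2 := by
  have hκ := hS.κ0
  have hκ1 := hS.κ1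
  refine ⟨10 * (8 / κ) * (8 / κ) ^ 2, by positivity, fun x h => ?_⟩
  have hx0 := gB_nonneg hS x
  have hh0 := gB_nonneg hS h
  by_cases hh : h = 0
  · subst hh
    rw [add_zero, sub_zero]
    have : fB W L R κ x + fB W L R κ x - 2 * fB W L R κ x = 0 := by ring
    rw [this]
    positivity
  have hI : 0 < IN W h := IN_pos hS.fam hh
  set A : ℝ := 2 * IN W h with hA
  have hA0 : 0 < A := by positivity
  have hAh : IN W h < A := by linarith
  have key : ∀ ε : ℝ, 0 < ε →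
      fB W L R κ (x + h) + fB W L R κ (x - h) - 2 * fB W L R κ x ≤
      10 * ((gB W L R κ x + ε) + 2 / κ * A) * (2 / κ * A) ^ 2 +
        2 * ((gB W L R κ x + ε) ^ 3 - fB W L R κ x) := by
    intro ε hε
    refine secA_int hS x h hA0 (by linarith) hAh ?_
    rw [← gB_cube hS x]
    exact pow_lt_pow_left₀ (by linarith) hx0 (by norm_num)
  have hlim : Filter.Tendsto (fun ε : ℝ =>
      10 * ((gB W L R κ x + ε) + 2 / κ * A) * (2 / κ * A) ^ 2 +
        2 * ((gB W L R κ x + ε) ^ 3 - fB W L R κ x)) (nhdsWithin 0 (Set.Ioi 0))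
      (nhds (10 * (gB W L R κ x + 2 / κ * A) * (2 / κ * A) ^ 2)) := by
    have hc : Continuous fun ε : ℝ => 10 * ((gB W L R κ x + ε) + 2 / κ * A) * (2 / κ * A) ^ 2 +
        2 * ((gB W L R κ x + ε) ^ 3 - fB W L R κ x) := by fun_prop
    have := hc.tendsto 0
    rw [add_zero, gB_cube hS, sub_self, mul_zero, add_zero] at this
    exact this.mono_left nhdsWithin_le_nhds
  have h1 : fB W L R κ (x + h) + fB W L R κ (x - h) - 2 * fB W L R κ x ≤
      10 * (gB W L R κ x + 2 / κ * A) * (2 / κ * A) ^ 2 := by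
    refine ge_of_tendsto hlim ?_
    filter_upwards [self_mem_nhdsWithin] with ε hε
    exact key ε hε
  refine h1.trans ?_
  have h2 : 2 / κ * A ≤ 8 / κ * gB W L R κ h := by
    have h3 := IN_le_gB hS h
    have h4 : A ≤ 4 * gB W L R κ h := by linarith
    calc 2 / κ * A ≤ 2 / κ * (4 * gB W L R κ h) := mul_le_mul_of_nonneg_left h4 (by positivity)
      _ = 8 / κ * gB W L R κ h := by ring
  have h0 : 0 ≤ 2 / κ * A := by positivity
  have h3 : (2 / κ * A) ^ 2 ≤ (8 / κ * gB W L R κ h) ^ 2 := pow_le_pow_left₀ h0 h2 2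
  have h4 : (1 : ℝ) ≤ 8 / κ := by
    rw [le_div_iff₀ hκ]
    linarith
  have h5 : gB W L R κ x + 2 / κ * A ≤ 8 / κ * (gB W L R κ x + gB W L R κ h) := by
    rw [mul_add]
    have := mul_le_mul_of_nonneg_right h4 hx0
    linarith
  calc 10 * (gB W L R κ x + 2 / κ * A) * (2 / κ * A) ^ 2 ≤
      10 * (8 / κ * (gB W L R κ x + gB W L R κ h)) * (8 / κ * gB W L R κ h) ^ 2 :=
        mul_le_mul (mul_le_mul_of_nonneg_left h5 (by norm_num)) h3 (by positivity) (by positivity)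
    _ = 10 * (8 / κ) * (8 / κ) ^ 2 * (gB W L R κ x + gB W L R κ h) * gB W L R κ h ^ 2 := by ring

end Pool.Agent.HB
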