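import Pool.Agent.HB.B.Cost

/-!
# HB.B.TailClaim: nearly optimal pairs have small tails

`B k` is a decreasing sequence of subsets of `CV` whose `gB`-diameters tend to `0` (think: points within `1/k` of a point of the completion).

PROOF.  Let `G` bound `gB` on `B k0` for some `k0` (the diameter of `B k0` is `≤ 1`); assume the claim fails for `ε`: for all `k, n, η` there are
`y ∈ B k`, `(F, U)` with `cst ≤ fB y + η` and `∫ R³ (L(U)³ - L(P_n U)³) > ε` (`P_n = res (Iio n)`).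
Let `λ ∈ (0, 1/2)` with `((1-λ)^{-2} - 1)(G³ + 1) ≤ ε/8`, then `K ≥ 1` with `λ^{-2} K^{-2} (G³+1) ≤ ε/8`, then `k ≥ k0` with
`|fB y - fB y'| ≤ ε/8` for all `y, y'` in the convex hull of `B k` (since `fB = gB³`, `|gB y - gB y'| ≤ gB(y-y') ≤ diam`).  Choose recursively
`(y_j, F_j, U_j)`, `j < K`, for `η = min 1 (ε/8)` and `n_j` larger than all coordinates of `U_i`, `i < j` (`IsCur`).  Let `ȳ, F̄, Ū` be the averages.
`Ū = a + b`, `a = (1/K) ∑ P_{n_j} U_j`, `b = (1/K) ∑ res (Ici n_j) U_j` where the vectors `res (Ici n_j) (U_j t)` have disjoint supports, so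
(`Ldisj`) `L(b)³ ≤ K^{-3} ∑ L(U_j)³`.  `L(a)³ ≤ (1/K) ∑ L(P_{n_j} U_j)³` (convexity).
`(u+v)³ ≤ u³/(1-λ)² + v³/λ²` gives `∫ R³ L(Ū)³ ≤ (1-λ)^{-2} (1/K) ∑ ∫ R³ L(P U_j)³ + λ^{-2} K^{-3} ∑ ∫ R³ L(U_j)³
≤ (1/K) ∑ ∫ R³ L(P U_j)³ + ε/8 + ε/8` (`∫ R³ L(U_j)³ ≤ cst ≤ G³ + 1`).
`∫ Pis(AF F̄ - Ū)³ ≤ (1/K) ∑ ∫ Pis(AF F_j - U_j)³`.  So
`fB ȳ ≤ cst F̄ Ū ≤ (1/K) ∑ [cst F_j U_j - ∫ R³(L(U_j)³ - L(P U_j)³)] + ε/4 < (1/K) ∑ fB y_j + η - ε + ε/4 ≤ fB ȳ + ε/8 + ε/8 - 3ε/4 < fB ȳ`.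
-/

open Finset Real MeasureTheory Polynomial

namespace Pool.Agent.HB

variable {W : TC → CV → ℝ} {L : CV → ℝ} {R : TC → ℝ} {κ : ℝ}

private theorem tc_num {p q a b : ℝ} (hp : 0 ≤ p) (hq : 0 ≤ q) (ha : 0 < a) (hb : 0 < b)
    (hab : a + b = 1) : (p + q) ^ 3 ≤ 1 / a ^ 2 * p ^ 3 + 1 / b ^ 2 * q ^ 3 := by
  have h := (convexOn_pow 3).2 (show p / a ∈ Set.Ici (0 : ℝ) from div_nonneg hp ha.le)
    (show q / b ∈ Set.Ici (0 : ℝ) from div_nonneg hq hb.le) ha.le hb.le hab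
  simp only [smul_eq_mul] at h
  have e1 : a * (p / a) + b * (q / b) = p + q := by field_simp
  have e2 : a * (p / a) ^ 3 + b * (q / b) ^ 3 = 1 / a ^ 2 * p ^ 3 + 1 / b ^ 2 * q ^ 3 := by
    field_simp
  rwa [e1, e2] at h

private theorem tc_ab {δ : ℝ} (hδ : 0 < δ) : ∃ α β : ℝ, 0 < α ∧ α ≤ 1 + δ ∧ 0 < β ∧
    ∀ p q : ℝ, 0 ≤ p → 0 ≤ q → (p + q) ^ 3 ≤ α * p ^ 3 + β * q ^ 3 := by
  obtain ⟨l, hl0, hl1, hl2⟩ : ∃ l : ℝ, 0 < l ∧ l ≤ 1 / 4 ∧ l ≤ δ / 6 :=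
    ⟨min (1 / 4) (δ / 6), lt_min (by norm_num) (by positivity), min_le_left _ _, min_le_right _ _⟩
  have ha : 0 < 1 - l := by linarith
  refine ⟨1 / (1 - l) ^ 2, 1 / l ^ 2, by positivity, ?_, by positivity, fun p q hp hq =>
    tc_num hp hq ha hl0 (by ring)⟩
  rw [div_le_iff₀ (by positivity)]
  have h1 : 0 ≤ 4 - 11 * l + 6 * l ^ 2 := by nlinarith
  have h2 : 1 ≤ (1 + 6 * l) * (1 - l) ^ 2 := by nlinarith [mul_nonneg hl0.le h1]
  have h3 : (1 + 6 * l) * (1 - l) ^ 2 ≤ (1 + δ) * (1 - l) ^ 2 :=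
    mul_le_mul_of_nonneg_right (by linarith) (by positivity)
  linarith

private theorem tc_sum {Φ : CV → ℝ} (h : CSm Φ) (x : ℕ → CV) : ∀ K : ℕ,
    Φ (∑ j ∈ range K, x j) ≤ ∑ j ∈ range K, Φ (x j) := by
  intro K
  induction K with
  | zero =>
    have h0 := h.smul 0 0
    rw [smul_zero, norm_zero, zero_mul] at h0
    rw [range_zero, sum_empty, sum_empty, h0]
  | succ K ih =>
    rw [sum_range_succ, sum_range_succ]
    exact (h.add _ _).trans (add_le_add ih le_rfl)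

private theorem tc_norm (K : ℕ) : ‖((K : ℂ))⁻¹‖ = (K : ℝ)⁻¹ := by
  rw [norm_inv, Complex.norm_natCast]

private theorem tc_avg1 {Φ : CV → ℝ} (h : CSm Φ) (x : ℕ → CV) (K : ℕ) :
    Φ ((K : ℂ)⁻¹ • ∑ j ∈ range K, x j) ≤ (K : ℝ)⁻¹ * ∑ j ∈ range K, Φ (x j) := by
  rw [h.smul, tc_norm]
  exact mul_le_mul_of_nonneg_left (tc_sum h x K) (by positivity)

private theorem tc_avg3 {Φ : CV → ℝ} (h : CSm Φ) (x : ℕ → CV) {K : ℕ} (hK : 0 < K) :
    Φ ((K : ℂ)⁻¹ • ∑ j ∈ range K, x j) ^ 3 ≤ (K : ℝ)⁻¹ * ∑ j ∈ range K, Φ (x j) ^ 3 := by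
  have hK' : (0 : ℝ) < K := by exact_mod_cast hK
  have h1 := Real.pow_arith_mean_le_arith_mean_pow (range K) (fun _ => (K : ℝ)⁻¹)
    (fun j => Φ (x j)) (fun _ _ => by positivity)
    (by rw [sum_const, card_range, nsmul_eq_mul]; field_simp) (fun j _ => h.nn (x j)) 3
  rw [← mul_sum, ← mul_sum] at h1
  exact (pow_le_pow_left₀ (h.nn _) (tc_avg1 h x K) 3).trans h1

private theorem tc_pisC (hS : BSys W L R κ) (t : TC) : CSm (Pis (W t) (sc κ t)) :=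
  ⟨pis_nonneg, pis_smul (hS.csm t) (sc_nonneg hS.κ0.le t) (hS.ps t),
    pis_add (hS.csm t) (sc_nonneg hS.κ0.le t) (hS.ps t)⟩

private theorem tc_LC (hS : BSys W L R κ) : CSm L := ⟨hS.Lnn, hS.Lsmul, hS.Ladd⟩

private theorem tc_gC (hS : BSys W L R κ) : CSm (gB W L R κ) :=
  ⟨gB_nonneg hS, gB_smul hS, gB_add hS⟩

private theorem tc_adm_sum {U : ℕ → TC → CV} (hU : ∀ j, AdmU (U j)) : ∀ K : ℕ,
    AdmU (fun t => ∑ j ∈ range K, U j t) := by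
  intro K
  induction K with
  | zero =>
    simp only [range_zero, sum_empty]
    exact adm_zero
  | succ K ih =>
    have h := adm_comb ih (hU K) 1 1
    simpa only [one_smul, sum_range_succ] using h

private theorem tc_adm_smul {U : TC → CV} (hU : AdmU U) (a : ℂ) : AdmU (fun t => a • U t) := by
  obtain ⟨hU1, δ, hδ, hU2⟩ := hU
  refine ⟨cur_smul hU1 (g := fun _ => a) continuous_const, δ, hδ, fun t ht => ?_⟩
  show a • U t = 0
  rw [hU2 t ht, smul_zero]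

private theorem tc_adm_res {U : TC → CV} (hU : AdmU U) (E : Set ℕ) :
    AdmU (fun t => res E (U t)) := by
  obtain ⟨hU1, δ, hδ, hU2⟩ := hU
  refine ⟨cur_res hU1 E, δ, hδ, fun t ht => ?_⟩
  show res E (U t) = 0
  rw [hU2 t ht, res_zero]

private theorem tc_AF (c : ℂ) (F : ℕ → Pol) (K : ℕ) (t : TC) :
    AF ((C c : ℂ[X]) • ∑ j ∈ range K, F j) t = c • ∑ j ∈ range K, AF (F j) t := by
  unfold AF
  rw [ev_smul, eval_C, ev_sum, smul_comm, smul_sum]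

private theorem tc_disj {U : ℕ → TC → CV} {n : ℕ → ℕ}
    (hn : ∀ i j, i < j → ∀ t m, n j ≤ m → U i t m = 0) (t : TC) {r r' : ℕ} (h : r < r') :
    Disjoint (res (Set.Ici (n r)) (U r t)).support (res (Set.Ici (n r')) (U r' t)).support := by
  rw [Finset.disjoint_left]
  intro i hi hi'
  have h1 := (res_support _ _).1 hi
  have h2 := (res_support _ _).1 hi'
  exact (Finsupp.mem_support_iff.1 h1.2) (hn r r' h t i h2.1)

private theorem tc_pt (hS : BSys W L R κ) {K : ℕ} (hK : 0 < K) (U : ℕ → TC → CV) (n : ℕ → ℕ)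
    (hn : ∀ i j, i < j → ∀ t m, n j ≤ m → U i t m = 0) {α β : ℝ} (hα : 0 < α) (hβ : 0 < β)
    (hab : ∀ p q : ℝ, 0 ≤ p → 0 ≤ q → (p + q) ^ 3 ≤ α * p ^ 3 + β * q ^ 3) (t : TC) :
    L ((K : ℂ)⁻¹ • ∑ j ∈ range K, U j t) ^ 3 ≤
      α * ((K : ℝ)⁻¹ * ∑ j ∈ range K, L (res (Set.Iio (n j)) (U j t)) ^ 3) +
        β * ((K : ℝ)⁻¹ ^ 3 * ∑ j ∈ range K, L (U j t) ^ 3) := by
  have e1 : (K : ℂ)⁻¹ • ∑ j ∈ range K, U j t =
      (K : ℂ)⁻¹ • ∑ j ∈ range K, res (Set.Iio (n j)) (U j t) +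
        (K : ℂ)⁻¹ • ∑ j ∈ range K, res (Set.Ici (n j)) (U j t) := by
    rw [← smul_add, ← sum_add_distrib]
    congr 1
    exact sum_congr rfl fun j _ => (res_Iio_add_Ici _ _).symm
  have h1 := tc_avg3 (tc_LC hS) (fun j => res (Set.Iio (n j)) (U j t)) hK
  have h2 : L ((K : ℂ)⁻¹ • ∑ j ∈ range K, res (Set.Ici (n j)) (U j t)) ^ 3 ≤
      (K : ℝ)⁻¹ ^ 3 * ∑ j ∈ range K, L (U j t) ^ 3 := by
    rw [hS.Lsmul, tc_norm, mul_pow]
    refine mul_le_mul_of_nonneg_left ?_ (by positivity)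
    refine (hS.Ldisj (range K) (fun j => res (Set.Ici (n j)) (U j t)) ?_).trans ?_
    · intro r _ r' _ hrr
      rcases lt_or_gt_of_ne hrr with h | h
      · exact tc_disj hn t h
      · exact (tc_disj hn t h).symm
    · exact sum_le_sum fun j _ => pow_le_pow_left₀ (hS.Lnn _) (hS.Lres _ _) 3
  rw [e1]
  calc L ((K : ℂ)⁻¹ • ∑ j ∈ range K, res (Set.Iio (n j)) (U j t) +
        (K : ℂ)⁻¹ • ∑ j ∈ range K, res (Set.Ici (n j)) (U j t)) ^ 3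
      ≤ (L ((K : ℂ)⁻¹ • ∑ j ∈ range K, res (Set.Iio (n j)) (U j t)) +
        L ((K : ℂ)⁻¹ • ∑ j ∈ range K, res (Set.Ici (n j)) (U j t))) ^ 3 :=
        pow_le_pow_left₀ (hS.Lnn _) (hS.Ladd _ _) 3
    _ ≤ α * L ((K : ℂ)⁻¹ • ∑ j ∈ range K, res (Set.Iio (n j)) (U j t)) ^ 3 +
        β * L ((K : ℂ)⁻¹ • ∑ j ∈ range K, res (Set.Ici (n j)) (U j t)) ^ 3 :=
        hab _ _ (hS.Lnn _) (hS.Lnn _)
    _ ≤ _ := add_le_add (mul_le_mul_of_nonneg_left h1 hα.le) (mul_le_mul_of_nonneg_left h2 hβ.le)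

private theorem tc_key (hS : BSys W L R κ) {K : ℕ} (hK : 0 < K) (F : ℕ → Pol)
    (U : ℕ → TC → CV) (hU : ∀ j, AdmU (U j)) (n : ℕ → ℕ)
    (hn : ∀ i j, i < j → ∀ t m, n j ≤ m → U i t m = 0) {α β : ℝ} (hα : 0 < α) (hβ : 0 < β)
    (hab : ∀ p q : ℝ, 0 ≤ p → 0 ≤ q → (p + q) ^ 3 ≤ α * p ^ 3 + β * q ^ 3) :
    cst W L R κ ((C (K : ℂ)⁻¹ : ℂ[X]) • ∑ j ∈ range K, F j)
      (fun t => (K : ℂ)⁻¹ • ∑ j ∈ range K, U j t) ≤
      (K : ℝ)⁻¹ * (∑ j ∈ range K, ∫ t, Pis (W t) (sc κ t) (AF (F j) t - U j t) ^ 3 ∂haar) +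
      (α * ((K : ℝ)⁻¹ * ∑ j ∈ range K,
          ∫ t, R t ^ 3 * L (res (Set.Iio (n j)) (U j t)) ^ 3 ∂haar) +
        β * ((K : ℝ)⁻¹ ^ 3 * ∑ j ∈ range K, ∫ t, R t ^ 3 * L (U j t) ^ 3 ∂haar)) := by
  have hŪ : AdmU (fun t => (K : ℂ)⁻¹ • ∑ j ∈ range K, U j t) :=
    tc_adm_smul (tc_adm_sum hU K) _
  rw [cst_eq hS _ hŪ]
  refine add_le_add ?_ ?_
  · rw [← integral_finsetSum _ fun j _ => int_pis hS (F j) (hU j) 3, ← integral_const_mul]
    refine integral_mono (int_pis hS _ hŪ 3)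
      ((integrable_finsetSum _ fun j _ => int_pis hS (F j) (hU j) 3).const_mul _) fun t => ?_
    show Pis (W t) (sc κ t) (AF ((C (K : ℂ)⁻¹ : ℂ[X]) • ∑ j ∈ range K, F j) t -
      (K : ℂ)⁻¹ • ∑ j ∈ range K, U j t) ^ 3 ≤
      (K : ℝ)⁻¹ * ∑ j ∈ range K, Pis (W t) (sc κ t) (AF (F j) t - U j t) ^ 3
    rw [tc_AF, ← smul_sub, ← sum_sub_distrib]
    exact tc_avg3 (tc_pisC hS t) (fun j => AF (F j) t - U j t) hK
  · have i1 : ∀ j ∈ range K, Integrable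
        (fun t => R t ^ 3 * L (res (Set.Iio (n j)) (U j t)) ^ 3) haar := fun j _ =>
      (int_RL hS (tc_adm_res (hU j) _)).1
    have i2 : ∀ j ∈ range K, Integrable (fun t => R t ^ 3 * L (U j t) ^ 3) haar := fun j _ =>
      (int_RL hS (hU j)).1
    rw [← integral_finsetSum _ i1, ← integral_finsetSum _ i2, ← integral_const_mul,
      ← integral_const_mul, ← integral_const_mul, ← integral_const_mul,
      ← integral_add ((((integrable_finsetSum _ i1).const_mul _)).const_mul _)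
        ((((integrable_finsetSum _ i2).const_mul _)).const_mul _)]
    refine integral_mono (int_RL hS hŪ).1
      (((((integrable_finsetSum _ i1).const_mul _)).const_mul _).add
        ((((integrable_finsetSum _ i2).const_mul _)).const_mul _)) fun t => ?_
    show R t ^ 3 * L ((K : ℂ)⁻¹ • ∑ j ∈ range K, U j t) ^ 3 ≤
      α * ((K : ℝ)⁻¹ * ∑ j ∈ range K, R t ^ 3 * L (res (Set.Iio (n j)) (U j t)) ^ 3) +
        β * ((K : ℝ)⁻¹ ^ 3 * ∑ j ∈ range K, R t ^ 3 * L (U j t) ^ 3)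
    have hR : 0 ≤ R t ^ 3 := pow_nonneg (zero_le_one.trans (hS.R1 t)) 3
    have h1 := mul_le_mul_of_nonneg_left (tc_pt hS hK U n hn hα hβ hab t) hR
    rw [← mul_sum, ← mul_sum]
    calc R t ^ 3 * L ((K : ℂ)⁻¹ • ∑ j ∈ range K, U j t) ^ 3 ≤ _ := h1
      _ = _ := by ring

private theorem tc_seq (N : ℕ → ℕ) : ∃ m : ℕ → ℕ, ∀ i j, i < j → N (m i) ≤ m j := by
  let m : ℕ → ℕ := fun k => Nat.rec 0 (fun _ a => max a (N a)) k
  have h1 : ∀ k, m (k + 1) = max (m k) (N (m k)) := fun k => rfl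
  have hmono : Monotone m := monotone_nat_of_le_succ fun k => by
    rw [h1]
    exact le_max_left _ _
  refine ⟨m, fun i j hij => ?_⟩
  calc N (m i) ≤ m (i + 1) := by
        rw [h1]
        exact le_max_right _ _
    _ ≤ m j := hmono hij

theorem tail_claim (hS : BSys W L R κ) (B : ℕ → Set CV) (hB : Antitone B)
    (hd : ∀ ε : ℝ, 0 < ε → ∃ k, ∀ y ∈ B k, ∀ y' ∈ B k, gB W L R κ (y - y') ≤ ε)
    {ε : ℝ} (hε : 0 < ε) :
    ∃ (k n : ℕ) (η : ℝ), 0 < η ∧ ∀ y ∈ B k, ∀ (F : Pol) (U : TC → CV), ev 0 F = y → AdmU U →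
      cst W L R κ F U ≤ fB W L R κ y + η →
      ∫ t, R t ^ 3 * (L (U t) ^ 3 - L (res (Set.Iio n) (U t)) ^ 3) ∂haar ≤ ε := by
  by_contra hcon
  push Not at hcon
  obtain ⟨k0, hk0⟩ := hd 1 one_pos
  obtain ⟨y0, hy0, -⟩ := hcon k0 0 1 one_pos
  set G : ℝ := gB W L R κ y0 + 1 with hG
  have hg0 := gB_nonneg hS y0
  have hG1 : 1 ≤ G := by linarith
  have hGB : ∀ y ∈ B k0, gB W L R κ y ≤ G := by
    intro y hy
    have h1 := gB_add hS y0 (y - y0)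
    rw [add_sub_cancel] at h1
    have h2 := hk0 y hy y0 hy0
    linarith
  have hG3 : 0 < G ^ 3 + 1 := by positivity
  obtain ⟨α, β, hα, hα1, hβ, hab⟩ := tc_ab (δ := ε / (8 * (G ^ 3 + 1))) (by positivity)
  obtain ⟨K, hK⟩ := exists_nat_ge (max 1 (8 * β * (G ^ 3 + 1) / ε))
  have hK1 : (1 : ℝ) ≤ K := (le_max_left _ _).trans hK
  have hK2 : 8 * β * (G ^ 3 + 1) / ε ≤ K := (le_max_right _ _).trans hK
  have hKpos : 0 < K := by
    rcases Nat.eq_zero_or_pos K with h | h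
    · rw [h, Nat.cast_zero] at hK1
      linarith
    · exact h
  have hK0 : (0 : ℝ) < K := by linarith
  set d : ℝ := min 1 (ε / (56 * (G + 1) ^ 2)) with hdd
  have hd0 : 0 < d := lt_min one_pos (by positivity)
  obtain ⟨k1, hk1⟩ := hd d hd0
  set k : ℕ := max k0 k1 with hk
  have hBk0 : B k ⊆ B k0 := hB (le_max_left _ _)
  have hBk1 : B k ⊆ B k1 := hB (le_max_right _ _)
  have hη : 0 < min 1 (ε / 8) := lt_min one_pos (by positivity)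
  have hbad := fun n => hcon k n (min 1 (ε / 8)) hη
  choose Y hY FF UU hFF hUU hcst htail using hbad
  have hN : ∀ n, ∃ N, ∀ t, ∀ i, N ≤ i → UU n t i = 0 := fun n => (hUU n).1.1
  choose N hN using hN
  obtain ⟨m, hm⟩ := tc_seq N
  have hn : ∀ i j, i < j → ∀ t l, m j ≤ l → UU (m i) t l = 0 := fun i j hij t l hl =>
    hN (m i) t l ((hm i j hij).trans hl)
  have hkey := tc_key hS hKpos (fun j => FF (m j)) (fun j => UU (m j)) (fun j => hUU (m j)) m hn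
    hα hβ hab
  have hŪ : AdmU (fun t => (K : ℂ)⁻¹ • ∑ j ∈ range K, UU (m j) t) :=
    tc_adm_smul (tc_adm_sum (fun j => hUU (m j)) K) _
  have hlow := fB_le hS ((C (K : ℂ)⁻¹ : ℂ[X]) • ∑ j ∈ range K, FF (m j)) hŪ
  have hev : ev 0 ((C (K : ℂ)⁻¹ : ℂ[X]) • ∑ j ∈ range K, FF (m j)) =
      (K : ℂ)⁻¹ • ∑ j ∈ range K, Y (m j) := by
    rw [ev_smul, eval_C, ev_sum]
    congr 1
    exact sum_congr rfl fun j _ => hFF (m j)
  rw [hev] at hlow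
  set yb : CV := (K : ℂ)⁻¹ • ∑ j ∈ range K, Y (m j) with hyb
  set Jj : ℕ → ℝ := fun j => ∫ t, Pis (W t) (sc κ t) (AF (FF (m j)) t - UU (m j) t) ^ 3 ∂haar
    with hJj
  set Ij : ℕ → ℝ := fun j => ∫ t, R t ^ 3 * L (UU (m j) t) ^ 3 ∂haar with hIj
  set Pj : ℕ → ℝ := fun j => ∫ t, R t ^ 3 * L (res (Set.Iio (m j)) (UU (m j) t)) ^ 3 ∂haar
    with hPj
  have hJI : ∀ j, Jj j + Ij j = cst W L R κ (FF (m j)) (UU (m j)) := fun j =>
    (cst_eq hS (FF (m j)) (hUU (m j))).symm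
  have hIP : ∀ j, ε < Ij j - Pj j := by
    intro j
    have h1 := htail (m j)
    have h2 : ∫ t, R t ^ 3 * (L (UU (m j) t) ^ 3 - L (res (Set.Iio (m j)) (UU (m j) t)) ^ 3) ∂haar
        = Ij j - Pj j := by
      rw [hIj, hPj]
      show _ = (∫ t, R t ^ 3 * L (UU (m j) t) ^ 3 ∂haar) -
        ∫ t, R t ^ 3 * L (res (Set.Iio (m j)) (UU (m j) t)) ^ 3 ∂haar
      rw [← integral_sub (int_RL hS (hUU (m j))).1 (int_RL hS (tc_adm_res (hUU (m j)) _)).1]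
      refine integral_congr_ae (Filter.Eventually.of_forall fun t => ?_)
      show R t ^ 3 * (L (UU (m j) t) ^ 3 - L (res (Set.Iio (m j)) (UU (m j) t)) ^ 3) =
        R t ^ 3 * L (UU (m j) t) ^ 3 - R t ^ 3 * L (res (Set.Iio (m j)) (UU (m j) t)) ^ 3
      ring
    rw [h2] at h1
    exact h1
  have hR0 : ∀ t, 0 ≤ R t ^ 3 := fun t => pow_nonneg (zero_le_one.trans (hS.R1 t)) 3
  have hJ0 : ∀ j, 0 ≤ Jj j := fun j => integral_nonneg fun t => pow_nonneg (pis_nonneg _) 3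
  have hP0 : ∀ j, 0 ≤ Pj j := fun j => integral_nonneg fun t =>
    mul_nonneg (hR0 t) (pow_nonneg (hS.Lnn _) 3)
  have hfY : ∀ j, fB W L R κ (Y (m j)) ≤ G ^ 3 := by
    intro j
    rw [← gB_cube hS]
    exact pow_le_pow_left₀ (gB_nonneg hS _) (hGB _ (hBk0 (hY (m j)))) 3
  have hI1 : ∀ j, Ij j ≤ G ^ 3 + 1 := by
    intro j
    have h1 := hcst (m j)
    have h2 := hJI j
    have h3 := hJ0 j
    have h4 := hfY j
    have h5 : min 1 (ε / 8) ≤ (1 : ℝ) := min_le_left _ _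
    linarith
  -- the points are close to their mean
  have hgyb : gB W L R κ yb ≤ G := by
    have h1 := tc_avg1 (tc_gC hS) (fun j => Y (m j)) K
    have h2 : ∑ j ∈ range K, gB W L R κ (Y (m j)) ≤ K * G := by
      calc ∑ j ∈ range K, gB W L R κ (Y (m j)) ≤ ∑ _j ∈ range K, G :=
            sum_le_sum fun j _ => hGB _ (hBk0 (hY (m j)))
        _ = K * G := by rw [sum_const, card_range, nsmul_eq_mul]
    calc gB W L R κ yb ≤ (K : ℝ)⁻¹ * ∑ j ∈ range K, gB W L R κ (Y (m j)) := h1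
      _ ≤ (K : ℝ)⁻¹ * (K * G) := mul_le_mul_of_nonneg_left h2 (by positivity)
      _ = G := by field_simp
  have hdist : ∀ j, gB W L R κ (Y (m j) - yb) ≤ d := by
    intro j
    have e1 : Y (m j) - yb = (K : ℂ)⁻¹ • ∑ i ∈ range K, (Y (m j) - Y (m i)) := by
      rw [sum_sub_distrib, smul_sub, sum_const, card_range, hyb]
      congr 1
      rw [← Nat.cast_smul_eq_nsmul ℂ, smul_smul,
        inv_mul_cancel₀ (by exact_mod_cast hKpos.ne'), one_smul]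
    rw [e1]
    have h1 := tc_avg1 (tc_gC hS) (fun i => Y (m j) - Y (m i)) K
    have h2 : ∑ i ∈ range K, gB W L R κ (Y (m j) - Y (m i)) ≤ K * d := by
      calc ∑ i ∈ range K, gB W L R κ (Y (m j) - Y (m i)) ≤ ∑ _i ∈ range K, d :=
            sum_le_sum fun i _ => hk1 _ (hBk1 (hY (m j))) _ (hBk1 (hY (m i)))
        _ = K * d := by rw [sum_const, card_range, nsmul_eq_mul]
    calc _ ≤ (K : ℝ)⁻¹ * ∑ i ∈ range K, gB W L R κ (Y (m j) - Y (m i)) := h1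
      _ ≤ (K : ℝ)⁻¹ * (K * d) := mul_le_mul_of_nonneg_left h2 (by positivity)
      _ = d := by field_simp
  have hfcl : ∀ j, fB W L R κ (Y (m j)) ≤ fB W L R κ yb + ε / 8 := by
    intro j
    have h1 := gB_add hS yb (Y (m j) - yb)
    rw [add_sub_cancel] at h1
    have h2 : gB W L R κ (Y (m j)) ≤ gB W L R κ yb + d := h1.trans (by linarith [hdist j])
    have hb0 := gB_nonneg hS yb
    have hd1 : d ≤ 1 := min_le_left _ _
    have hd2 : d ≤ ε / (56 * (G + 1) ^ 2) := min_le_right _ _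
    rw [← gB_cube hS, ← gB_cube hS]
    have h3 := pow_le_pow_left₀ (gB_nonneg hS _) h2 3
    have h4 : (gB W L R κ yb + d) ^ 3 ≤ gB W L R κ yb ^ 3 + 7 * (G + 1) ^ 2 * d := by
      have e1 : (gB W L R κ yb + d) ^ 3 = gB W L R κ yb ^ 3 +
        (3 * gB W L R κ yb ^ 2 + 3 * gB W L R κ yb * d + d ^ 2) * d := by ring
      rw [e1]
      refine add_le_add le_rfl (mul_le_mul_of_nonneg_right ?_ hd0.le)
      have a1 : gB W L R κ yb ^ 2 ≤ G ^ 2 := pow_le_pow_left₀ hb0 hgyb 2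
      have a2 : gB W L R κ yb * d ≤ G * 1 := mul_le_mul hgyb hd1 hd0.le (by linarith)
      have a3 : d ^ 2 ≤ 1 := pow_le_one₀ hd0.le hd1
      nlinarith
    have h5 : 7 * (G + 1) ^ 2 * d ≤ ε / 8 := by
      calc 7 * (G + 1) ^ 2 * d ≤ 7 * (G + 1) ^ 2 * (ε / (56 * (G + 1) ^ 2)) :=
            mul_le_mul_of_nonneg_left hd2 (by positivity)
        _ = ε / 8 := by field_simp; ring
    linarith
  -- the estimate
  have hA : ∀ j, α * Pj j ≤ Pj j + ε / 8 := by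
    intro j
    have h1 : Pj j ≤ G ^ 3 + 1 := by linarith [hIP j, hI1 j]
    have h2 : (α - 1) * Pj j ≤ ε / (8 * (G ^ 3 + 1)) * (G ^ 3 + 1) := by
      have h3 : (α - 1) * Pj j ≤ ε / (8 * (G ^ 3 + 1)) * Pj j :=
        mul_le_mul_of_nonneg_right (by linarith) (hP0 j)
      exact h3.trans (mul_le_mul_of_nonneg_left h1 (by positivity))
    have h4 : ε / (8 * (G ^ 3 + 1)) * (G ^ 3 + 1) = ε / 8 := by field_simp
    linarith
  have hB3 : β * ((K : ℝ)⁻¹ ^ 3 * ∑ j ∈ range K, Ij j) ≤ ε / 8 := by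
    have h1 : ∑ j ∈ range K, Ij j ≤ K * (G ^ 3 + 1) := by
      calc ∑ j ∈ range K, Ij j ≤ ∑ _j ∈ range K, (G ^ 3 + 1) := sum_le_sum fun j _ => hI1 j
        _ = K * (G ^ 3 + 1) := by rw [sum_const, card_range, nsmul_eq_mul]
    have h2 : (K : ℝ)⁻¹ ^ 3 * ∑ j ∈ range K, Ij j ≤ (K : ℝ)⁻¹ ^ 3 * (K * (G ^ 3 + 1)) :=
      mul_le_mul_of_nonneg_left h1 (by positivity)
    have h3 : (K : ℝ)⁻¹ ^ 3 * (K * (G ^ 3 + 1)) ≤ (K : ℝ)⁻¹ * (G ^ 3 + 1) := by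
      have e1 : (K : ℝ)⁻¹ ^ 3 * (K * (G ^ 3 + 1)) = (K : ℝ)⁻¹ * ((K : ℝ)⁻¹ * (G ^ 3 + 1)) := by
        field_simp
      rw [e1]
      refine mul_le_mul_of_nonneg_left ?_ (by positivity)
      have h4 : (K : ℝ)⁻¹ ≤ 1 := inv_le_one_of_one_le₀ hK1
      nlinarith
    have h4 : β * ((K : ℝ)⁻¹ * (G ^ 3 + 1)) ≤ ε / 8 := by
      rw [div_le_iff₀ hε] at hK2
      have e1 : β * ((K : ℝ)⁻¹ * (G ^ 3 + 1)) = (8 * β * (G ^ 3 + 1)) / (8 * K) := by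
        field_simp
      rw [e1, div_le_iff₀ (by positivity)]
      linarith
    exact (mul_le_mul_of_nonneg_left (h2.trans h3) hβ.le).trans h4
  have hsum : (K : ℝ)⁻¹ * (∑ j ∈ range K, Jj j) + α * ((K : ℝ)⁻¹ * ∑ j ∈ range K, Pj j) ≤
      fB W L R κ yb + ε / 8 + ε / 8 + ε / 8 - ε := by
    have h1 : ∀ j ∈ range K, Jj j + α * Pj j ≤ fB W L R κ yb + ε / 8 + ε / 8 + ε / 8 - ε := by
      intro j _
      have a1 := hA j
      have a2 := hJI j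
      have a3 := hcst (m j)
      have a4 := hfcl j
      have a5 := hIP j
      have a6 : min 1 (ε / 8) ≤ ε / 8 := min_le_right _ _
      linarith
    have h2 : ∑ j ∈ range K, (Jj j + α * Pj j) ≤
        K * (fB W L R κ yb + ε / 8 + ε / 8 + ε / 8 - ε) := by
      calc _ ≤ ∑ _j ∈ range K, (fB W L R κ yb + ε / 8 + ε / 8 + ε / 8 - ε) := sum_le_sum h1
        _ = _ := by rw [sum_const, card_range, nsmul_eq_mul]
    have e1 : (K : ℝ)⁻¹ * (∑ j ∈ range K, Jj j) + α * ((K : ℝ)⁻¹ * ∑ j ∈ range K, Pj j) =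
        (K : ℝ)⁻¹ * ∑ j ∈ range K, (Jj j + α * Pj j) := by
      rw [sum_add_distrib, ← mul_sum]
      ring
    rw [e1]
    calc (K : ℝ)⁻¹ * ∑ j ∈ range K, (Jj j + α * Pj j)
        ≤ (K : ℝ)⁻¹ * (K * (fB W L R κ yb + ε / 8 + ε / 8 + ε / 8 - ε)) :=
          mul_le_mul_of_nonneg_left h2 (by positivity)
      _ = _ := by field_simp
  have hfinal := hlow.trans hkey
  linarith

end Pool.Agent.HB
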